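import Pool.Agent.V7H33.CY.SpecN
import Pool.Agent.W340.RT.SVR2
import Pool.Agent.W29.RT.CNT2
import Pool.Agent.V7H33.CY.GC2

/-!
# The counting theorem for the curves with a point of order four: the inner step
-/

set_option autoImplicit false

namespace Pool.Agent.V7H30.CY

open Finset Pool.Agent.W262.RK Pool.Agent.W307.RT Pool.Agent.V7H45.G8 Pool.Agent.V7H45.CY
open Pool.Agent.V7H33.CY (cn S_NG)
open Pool.Agent.W29.RT (dvd_S1 dvd_S2 G2 c0 mj_eq cong)
open Pool.Agent.W372.RK2 (mem_Tup' mj card_W prod_gw)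
open Pool.Agent.V7H33.CY (prod_prG mj_ne_zeroG)

open Classical in
/-- the residues with the given symbol -/
noncomputable def WG (e : ℤ) (a g p : ℕ) : Finset ℕ := if p ∣ g then range p else
  (range p).filter (fun x : ℕ => jacobiSym x p = jacobiSym (g * e) p * (if p ∣ a then 1 else -1))

lemma jac_unit {x : ℤ} {p : ℕ} (hp : p.Prime) (hx : ¬ (p : ℤ) ∣ x) :
    jacobiSym x p = 1 ∨ jacobiSym x p = -1 := by
  rcases jacobiSym.trichotomy x p with h | h | h
  · exfalso
    have : Fact p.Prime := ⟨hp⟩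
    have : NeZero p := ⟨hp.ne_zero⟩
    rw [jacobiSym.eq_zero_iff_not_coprime] at h
    apply h
    rw [Int.gcd_comm]
    have h2 : IsCoprime (p : ℤ) x :=
      (Prime.coprime_iff_not_dvd (Nat.prime_iff_prime_int.1 hp)).2 hx
    exact Int.isCoprime_iff_gcd_eq_one.1 h2
  · exact Or.inl h
  · exact Or.inr h

lemma card_WG {e : ℤ} (he : e = 1 ∨ e = -1) (a g : ℕ) {p : ℕ} (hp : p.Prime) (hp2 : p ≠ 2) :
    ((WG e a g p).card : ℝ) ≤ p * (if p ∣ g then 1 else 1 / 2) := by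
  unfold WG
  by_cases h : p ∣ g
  · rw [if_pos h, if_pos h, card_range]; simp
  · rw [if_neg h, if_neg h]
    have h1 : ¬ (p : ℤ) ∣ (g : ℤ) * e := by
      intro h2
      rcases he with rfl | rfl
      · rw [mul_one] at h2
        exact h (Int.natCast_dvd_natCast.1 h2)
      · rw [mul_neg_one, dvd_neg] at h2
        exact h (Int.natCast_dvd_natCast.1 h2)
    have h2 : jacobiSym (g * e) p * (if p ∣ a then 1 else -1) = 1 ∨
        jacobiSym (g * e) p * (if p ∣ a then 1 else -1) = -1 := by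
      rcases jac_unit hp h1 with h3 | h3 <;> rw [h3] <;> split_ifs <;> simp
    have h3 := card_W hp hp2 _ h2
    have h4 : 2 * ((range p).filter (fun x : ℕ => jacobiSym x p =
        jacobiSym (g * e) p * (if p ∣ a then 1 else -1))).card ≤ p := by omega
    have h5 : (2 : ℝ) * (((range p).filter (fun x : ℕ => jacobiSym x p =
        jacobiSym (g * e) p * (if p ∣ a then 1 else -1))).card : ℝ) ≤ p := by exact_mod_cast h4
    linarith

lemma prod_WG {e : ℤ} (he : e = 1 ∨ e = -1) (a g : ℕ) (hg : g ≠ 0) {z y d : ℕ} (hz : 2 ≤ z)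
    (hd : d ∈ (PP z y).divisors) :
    ((Finset.pi d.primeFactors (fun p => WG e a g p)).card : ℝ) ≤
      d * (1 / 2) ^ d.primeFactors.card * 2 ^ g.primeFactors.card := by
  rw [Finset.card_pi]
  push_cast
  have h1 : ∏ p ∈ d.primeFactors, ((WG e a g p).card : ℝ) ≤
      ∏ p ∈ d.primeFactors, ((p : ℝ) * ((1 / 2) * (if p ∣ g then 2 else 1))) := by
    apply prod_le_prod (fun _ _ => Nat.cast_nonneg _)
    intro p hp
    have hpp := Nat.prime_of_mem_primeFactors hp
    have hp2 : p ≠ 2 := by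
      have := (dv_prime hd hpp (Nat.dvd_of_mem_primeFactors hp)).1
      omega
    refine (card_WG he a g hpp hp2).trans (le_of_eq ?_)
    split_ifs <;> norm_num
  refine h1.trans ?_
  rw [prod_mul_distrib, prod_mul_distrib, prod_const, ← Nat.cast_prod,
    Nat.prod_primeFactors_of_squarefree (dv_squarefree hd), Finset.prod_ite, prod_const, prod_const,
    one_pow, mul_one]
  rw [mul_assoc]
  apply mul_le_mul_of_nonneg_left _ (Nat.cast_nonneg _)
  apply mul_le_mul_of_nonneg_left _ (by positivity)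
  apply pow_le_pow_right₀ (by norm_num)
  apply card_le_card
  intro p hp
  rw [mem_filter] at hp
  exact Nat.mem_primeFactors.2 ⟨Nat.prime_of_mem_primeFactors hp.1, hp.2, hg⟩

/-- a good point has the facts `G2` -/
lemma un3 {e : ℤ} (he : e = 1 ∨ e = -1) {g t n : ℕ} (h : Ok3 e (g, t, n)) {p : ℕ} (hp : p.Prime)
    (h2 : 2 < p) : ∀ j l : Fin 3, (p : ℤ) ∣ f3 e (g, t, n) j → (p : ℤ) ∣ f3 e (g, t, n) l →
      j = l := by
  obtain ⟨-, -, -, -, h3, h4, -⟩ := h
  change t.Coprime n at h3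
  change g.Coprime n at h4
  have hpI : Prime (p : ℤ) := Nat.prime_iff_prime_int.1 hp
  have hen : ∀ x : ℤ, (p : ℤ) ∣ e * x ↔ (p : ℤ) ∣ x := by
    intro x
    rcases he with rfl | rfl
    · rw [one_mul]
    · rw [neg_one_mul, dvd_neg]
  have h4' : ¬ (p : ℤ) ∣ 4 := by
    intro h5
    have h6 : (p : ℤ) ∣ 2 ^ 2 := by norm_num; exact h5
    have h7 := hpI.dvd_of_dvd_pow h6
    have h8 := Int.le_of_dvd (by norm_num) h7
    have : p ≤ 2 := by exact_mod_cast h8
    omega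
  have tn : ¬ ((p : ℤ) ∣ (t : ℤ) ∧ (p : ℤ) ∣ (n : ℤ)) := by
    rintro ⟨h5, h6⟩
    have := Nat.dvd_gcd (Int.natCast_dvd_natCast.1 h5) (Int.natCast_dvd_natCast.1 h6)
    rw [h3] at this
    exact hp.one_lt.ne' (Nat.dvd_one.1 this)
  have gn : ¬ ((p : ℤ) ∣ (g : ℤ) ∧ (p : ℤ) ∣ (n : ℤ)) := by
    rintro ⟨h5, h6⟩
    have := Nat.dvd_gcd (Int.natCast_dvd_natCast.1 h5) (Int.natCast_dvd_natCast.1 h6)
    rw [h4] at this
    exact hp.one_lt.ne' (Nat.dvd_one.1 this)
  have k01 : ¬ ((p : ℤ) ∣ f3 e (g, t, n) 0 ∧ (p : ℤ) ∣ f3 e (g, t, n) 1) := by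
    rintro ⟨h5, h6⟩
    exact tn ⟨h5, (hen _).1 h6⟩
  have k02 : ¬ ((p : ℤ) ∣ f3 e (g, t, n) 0 ∧ (p : ℤ) ∣ f3 e (g, t, n) 2) := by
    rintro ⟨h5, h6⟩
    have h5' : (p : ℤ) ∣ (t : ℤ) := h5
    have h6' : (p : ℤ) ∣ 4 * (e * (n : ℤ)) - (g : ℤ) * (t : ℤ) ^ 2 := h6
    have h7 : (p : ℤ) ∣ 4 * (e * (n : ℤ)) := by
      have := dvd_add h6' (Dvd.dvd.mul_left (Dvd.dvd.pow h5' two_ne_zero) (g : ℤ))
      rwa [sub_add_cancel] at this
    rcases hpI.dvd_or_dvd h7 with h8 | h8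
    · exact h4' h8
    · exact tn ⟨h5', (hen _).1 h8⟩
  have k12 : ¬ ((p : ℤ) ∣ f3 e (g, t, n) 1 ∧ (p : ℤ) ∣ f3 e (g, t, n) 2) := by
    rintro ⟨h5, h6⟩
    have h5' : (p : ℤ) ∣ e * (n : ℤ) := h5
    have h5n := (hen _).1 h5'
    have h6' : (p : ℤ) ∣ 4 * (e * (n : ℤ)) - (g : ℤ) * (t : ℤ) ^ 2 := h6
    have h7 : (p : ℤ) ∣ (g : ℤ) * (t : ℤ) ^ 2 := by
      have := dvd_sub (Dvd.dvd.mul_left h5' (4 : ℤ)) h6'
      rwa [sub_sub_cancel] at this
    rcases hpI.dvd_or_dvd h7 with h8 | h8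
    · exact gn ⟨h8, h5n⟩
    · exact tn ⟨hpI.dvd_of_dvd_pow h8, h5n⟩
  intro j l hj hl
  fin_cases j <;> fin_cases l
  · rfl
  · exact absurd ⟨hj, hl⟩ k01
  · exact absurd ⟨hj, hl⟩ k02
  · exact absurd ⟨hl, hj⟩ k01
  · rfl
  · exact absurd ⟨hj, hl⟩ k12
  · exact absurd ⟨hl, hj⟩ k02
  · exact absurd ⟨hl, hj⟩ k12
  · rfl

lemma prod_mono {A B : Finset ℕ} (q : ℕ → ℝ) (h : A ⊆ B) (hq : ∀ p ∈ B, 1 ≤ q p) :
    ∏ p ∈ A, q p ≤ ∏ p ∈ B, q p := by
  rw [← prod_sdiff h]
  apply le_mul_of_one_le_left (prod_nonneg fun p hp => zero_le_one.trans (hq p (h hp)))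
  calc (1 : ℝ) = ∏ p ∈ B \ A, (1 : ℝ) := by simp
    _ ≤ _ := prod_le_prod (fun _ _ => zero_le_one) fun p hp => hq p (mem_sdiff.1 hp).1

lemma prod_union_le {A B D : Finset ℕ} (q : ℕ → ℝ) (h : A ⊆ B ∪ D)
    (hq : ∀ p ∈ B ∪ D, 1 ≤ q p) : ∏ p ∈ A, q p ≤ (∏ p ∈ B, q p) * ∏ p ∈ D, q p := by
  refine (prod_mono q h hq).trans ?_
  rw [← union_sdiff_self_eq_union, prod_union disjoint_sdiff]
  apply mul_le_mul_of_nonneg_left
  · exact prod_mono q sdiff_subset fun p hp => hq p (mem_union_right _ hp)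
  · exact prod_nonneg fun p hp => zero_le_one.trans (hq p (mem_union_left _ hp))

lemma cn_eq (e : ℤ) (z y : ℕ) (s v u : Fin 3 → ℕ) (a N g t : ℕ) :
    ∃ T : Finset ℕ, cn e z y s v u a N g t = T.card ∧ ∀ n ∈ T, n ∈ Icc 1 N ∧
      Ok3 e (g, t, n) ∧ S1 z y (f3 e (g, t, n)) = s ∧
      S2 z y (f3 e (g, t, n)) = v ∧ (∀ j, (u j : ℤ) ∣ f3 e (g, t, n) j) ∧
      spl z y e (g, t, n) = a := by
  classical
  exact ⟨_, rfl, fun _ hn => mem_filter.1 hn⟩

theorem t_NG : S_NG := by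
  intro e he
  refine ⟨2, 6, fun z hz => ?_⟩
  obtain ⟨C, K, y0, hC, hK, hSV⟩ := Pool.Agent.W340.RT.SVR2.svr2 (Fin 2) z (by simp; omega)
  refine ⟨C, K, y0, hC, hK, ?_⟩
  intro X y Y hy0 hzy hX s hs v hv u hu hsvu a ha g t hg ht hgt
  have hs' := (mem_Tup'.1 hs).1
  have hv' := (mem_Tup'.1 hv).1
  have hu' := (mem_Tup'.1 hu).1
  have hc : 2 ≤ z := by omega
  have hlog : 0 ≤ (Real.log y) ^ 2 := pow_nonneg (Real.log_natCast_nonneg y) _
  have hgs : ∀ j, 0 ≤ gw 1 2 (s j) := fun j => gw_nonneg zero_le_one hc (hs' j)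
  have hgv : ∀ j, 0 ≤ gw 1 2 (v j) := fun j => gw_nonneg zero_le_one hc (hv' j)
  have hs0 : ∀ j, s j ≠ 0 := fun j => dv_ne_zero (hs' j)
  have hv0 : ∀ j, v j ≠ 0 := fun j => dv_ne_zero (hv' j)
  have hu0 : ∀ j, u j ≠ 0 := fun j => dv_ne_zero (hu' j)
  have hg0 : g ≠ 0 := by omega
  have hX1 : 1 ≤ X := le_trans (Nat.one_le_pow _ _ (by omega)) hX
  obtain ⟨N, hN⟩ : ∃ N : ℕ, N = X ^ 4 / g := ⟨_, rfl⟩
  rw [← hN]
  have hNr : (N : ℝ) ≤ (X : ℝ) ^ 4 / g := by
    rw [hN]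
    refine (Nat.cast_div_le).trans (le_of_eq ?_)
    push_cast; rfl
  have hN2 : X ≤ N := by
    have h1 : g ≤ X ^ 2 := le_trans (Nat.le_mul_of_pos_right g ht) hgt
    have h2 : X ^ 2 ≤ N := by
      rw [hN, Nat.le_div_iff_mul_le (by omega)]
      calc X ^ 2 * g ≤ X ^ 2 * X ^ 2 := Nat.mul_le_mul_left _ h1
        _ = X ^ 4 := by ring
    exact (Nat.le_self_pow two_ne_zero X).trans h2
  obtain ⟨T, hTc, hT⟩ := cn_eq e z y s v u a N g t
  rw [hTc]
  have hgood : ∀ n ∈ T, G2 z y s v u (f3 e (g, t, n)) := by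
    intro n hn
    have hn := hT n hn
    exact ⟨hn.2.2.1, hn.2.2.2.1, hn.2.2.2.2.1, fun p hp hzp j l hj hl =>
      un3 he hn.2.1 hp (by omega) j l hj hl⟩
  rcases T.eq_empty_or_nonempty with hTe | ⟨n0, hn0⟩
  · rw [hTe, card_empty, Nat.cast_zero]
    have h0 := hgs 0
    have h1 := hgs 1
    have h2 := hgs 2
    have h3 := hgv 0
    have h4 := hgv 1
    have h5 := hgv 2
    positivity
  -- the last two forms
  obtain ⟨s', hsd⟩ : ∃ s' : Fin 2 → ℕ, s' = fun j => s j.succ := ⟨_, rfl⟩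
  obtain ⟨v', hvd⟩ : ∃ v' : Fin 2 → ℕ, v' = fun j => v j.succ := ⟨_, rfl⟩
  obtain ⟨u', hud⟩ : ∃ u' : Fin 2 → ℕ, u' = fun j => u j.succ := ⟨_, rfl⟩
  have hTup : ∀ (w : Fin 3 → ℕ) (A B : ℕ), w ∈ Tup (Fin 3) A B →
      (fun j : Fin 2 => w j.succ) ∈ Tup (Fin 2) A B := by
    intro w A B hw
    rw [mem_Tup'] at hw ⊢
    exact ⟨fun j => hw.1 j.succ, fun i j hij => hw.2 i.succ j.succ (fun h => hij (Fin.succ_injective _ h))⟩
  have hs2 : s' ∈ Tup (Fin 2) z y := by rw [hsd]; exact hTup s z y hs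
  have hv2 : v' ∈ Tup (Fin 2) z y := by rw [hvd]; exact hTup v z y hv
  have hu2 : u' ∈ Tup (Fin 2) y Y := by rw [hud]; exact hTup u y Y hu
  have hg2 : ∀ n ∈ T, G2 z y s' v' u' (fun j : Fin 2 => f3 e (g, t, n) j.succ) := by
    intro n hn
    have h := hgood n hn
    refine ⟨?_, ?_, ?_, ?_⟩
    · rw [hsd]; funext j; exact congrFun h.hs j.succ
    · rw [hvd]; funext j; exact congrFun h.hv j.succ
    · intro j; rw [hud]; exact h.hu j.succ
    · intro p hp hzp j l hj hl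
      exact Fin.succ_injective _ (h.un p hp hzp j.succ l.succ hj hl)
  obtain ⟨α, hα⟩ : ∃ α : Fin 2 → ℤ, α = ![e, 4 * e] := ⟨_, rfl⟩
  obtain ⟨β, hβ⟩ : ∃ β : Fin 2 → ℤ, β = ![0, -((g : ℤ) * (t : ℤ) ^ 2)] := ⟨_, rfl⟩
  have hff : ∀ (n : ℕ) (j : Fin 2), ff α β (n : ℤ) j = f3 e (g, t, n) j.succ := by
    intro n j
    rw [hα, hβ]
    unfold ff f3
    fin_cases j
    · simp
    · simp
      ring
  have hαp : ∀ p : ℕ, p.Prime → z < p → ∀ j, ¬ (p : ℤ) ∣ α j := by
    intro p hp hzp j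
    have hpI : Prime (p : ℤ) := Nat.prime_iff_prime_int.1 hp
    have h1 : ¬ (p : ℤ) ∣ e := by
      intro h
      have h2 : (p : ℤ) ∣ 1 := by
        rcases he with rfl | rfl
        · exact h
        · exact (dvd_neg).1 h
      have h3 := Int.le_of_dvd one_pos h2
      have : p ≤ 1 := by exact_mod_cast h3
      omega
    have h4 : ¬ (p : ℤ) ∣ 4 := by
      intro h
      have h3 := Int.le_of_dvd (by norm_num) h
      have : p ≤ 4 := by exact_mod_cast h3
      omega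
    rw [hα]
    fin_cases j
    · exact h1
    · change ¬ (p : ℤ) ∣ 4 * e
      intro h
      rcases hpI.dvd_or_dvd h with h | h
      · exact h4 h
      · exact h1 h
  obtain ⟨m1, hm1⟩ : ∃ m1 : ℕ, m1 = ∏ j : Fin 2, mj c0 s' v' u' j := ⟨_, rfl⟩
  have hm1e : m1 = (s 1 * v 1 ^ 2 * u 1) * (s 2 * v 2 ^ 2 * u 2) := by
    rw [hm1, Fin.prod_univ_two, mj_eq, mj_eq, hsd, hvd, hud]
    rfl
  have hm10 : m1 ≠ 0 := by
    rw [hm1e]
    have h1 := hs0 1
    have h2 := hs0 2
    have h3 := hv0 1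
    have h4 := hv0 2
    have h5 := hu0 1
    have h6 := hu0 2
    positivity
  obtain ⟨m, hm⟩ : ∃ m : ℕ, m = s 0 * m1 := ⟨_, rfl⟩
  have hm0 : m ≠ 0 := by rw [hm]; exact mul_ne_zero (hs0 0) hm10
  have hm4 : m ^ 4 ≤ N := by
    refine le_trans ?_ (hsvu.trans hN2)
    have h1 : m ≤ (∏ j, s j * v j * u j) ^ 2 := by
      rw [Fin.prod_univ_three, hm, hm1e]
      have hpos : ∀ x : ℕ, x ≠ 0 → x ≤ x ^ 2 := fun x _ => Nat.le_self_pow two_ne_zero x
      have a0 : s 0 ≤ (s 0 * v 0 * u 0) ^ 2 := by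
        refine le_trans ?_ (Nat.le_self_pow two_ne_zero _)
        have h2 := Nat.pos_of_ne_zero (hv0 0)
        have h3 := Nat.pos_of_ne_zero (hu0 0)
        calc s 0 = s 0 * 1 * 1 := by ring
          _ ≤ s 0 * v 0 * u 0 := by gcongr <;> assumption
      have a1 : ∀ j, s j * v j ^ 2 * u j ≤ (s j * v j * u j) ^ 2 := by
        intro j
        calc s j * v j ^ 2 * u j ≤ s j ^ 2 * v j ^ 2 * u j ^ 2 := by
              gcongr
              · exact hpos _ (hs0 j)
              · exact hpos _ (hu0 j)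
          _ = (s j * v j * u j) ^ 2 := by ring
      calc s 0 * ((s 1 * v 1 ^ 2 * u 1) * (s 2 * v 2 ^ 2 * u 2)) ≤
          (s 0 * v 0 * u 0) ^ 2 * ((s 1 * v 1 * u 1) ^ 2 * (s 2 * v 2 * u 2) ^ 2) := by
            gcongr
            · exact a1 1
            · exact a1 2
        _ = _ := by ring
    calc m ^ 4 ≤ ((∏ j, s j * v j * u j) ^ 2) ^ 4 := Nat.pow_le_pow_left h1 4
      _ = (∏ j, s j * v j * u j) ^ 8 := by rw [← pow_mul]
  have gn0 := hgood n0 hn0
  have hcop : (s 0).Coprime m1 := by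
    apply Nat.coprime_of_dvd
    intro p hp h1 h2
    have h3 := gn0.fs hp h1
    rw [hm1] at h2
    obtain ⟨j, -, hj⟩ := (hp.prime.dvd_finsetProd_iff _).1 h2
    have h4 := (hg2 n0 hn0).fmj hu2 hzy hp hj
    have h5 := gn0.un p hp h4.1 0 j.succ h3.2.1 h4.2
    exact (Fin.succ_ne_zero j) h5.symm
  -- the sieve
  obtain ⟨M, hM⟩ : ∃ M : ℕ, M = m * (g * t) := ⟨_, rfl⟩
  have hM0 : M ≠ 0 := by rw [hM]; exact mul_ne_zero hm0 (mul_ne_zero hg0 (by omega))
  obtain ⟨Gm, hGm⟩ : ∃ Gm : ℝ, Gm = ∏ p ∈ M.primeFactors.filter (fun p => p ∈ PS z y),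
      (p : ℝ) / ((p : ℝ) - (2 : ℕ)) := ⟨_, rfl⟩
  obtain ⟨Bd, hBd⟩ : ∃ Bd : ℝ, Bd = C * (N / m) * Gm / (Real.log y) ^ 2 := ⟨_, rfl⟩
  have hbd : ∀ r : ℕ, (((Icc 1 N).filter (fun x : ℕ => x ≡ r [MOD m] ∧
      ∀ p ∈ PS z y, ¬ p ∣ M → ∀ j, ¬ (p : ℤ) ∣ ff α β (x : ℤ) j)).card : ℝ) ≤ Bd := by
    intro r
    have h := hSV N y hy0 hzy (hX.trans hN2) α β m M r (Nat.one_le_iff_ne_zero.2 hm0)
      (by rw [hM]; exact dvd_mul_right _ _) hM0 hm4 (by
        intro p hp hpM
        have hpp := (mem_PS.1 hp).2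
        have hzp := (mem_PS.1 hp).1.1
        have hpI : Prime (p : ℤ) := Nat.prime_iff_prime_int.1 hpp
        have hgt' : ¬ (p : ℤ) ∣ (g : ℤ) * (t : ℤ) ^ 2 := by
          intro h
          apply hpM
          rw [hM]
          apply Dvd.dvd.mul_left
          rcases hpI.dvd_or_dvd h with h | h
          · exact Dvd.dvd.mul_right (Int.natCast_dvd_natCast.1 h) _
          · exact Dvd.dvd.mul_left (Int.natCast_dvd_natCast.1 (hpI.dvd_of_dvd_pow h)) _
        have hres : ¬ (p : ℤ) ∣ e * ((g : ℤ) * (t : ℤ) ^ 2) := by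
          intro h
          rcases hpI.dvd_or_dvd h with h | h
          · have := hαp p hpp hzp 0
            rw [hα] at this
            exact this h
          · exact hgt' h
        refine ⟨hαp p hpp hzp, ?_⟩
        intro j l hjl
        rw [hα, hβ]
        unfold Res
        fin_cases j <;> fin_cases l
        · exact absurd rfl hjl
        · simp only [Matrix.cons_val_zero, Matrix.cons_val_one, Fin.zero_eta, Fin.mk_one]
          intro h
          apply hres
          have h2 : e * ((g : ℤ) * (t : ℤ) ^ 2) = -(e * -((g : ℤ) * (t : ℤ) ^ 2) - 4 * e * 0) := by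
            ring
          rw [h2]
          exact (dvd_neg).2 h
        · simp only [Matrix.cons_val_zero, Matrix.cons_val_one, Fin.zero_eta, Fin.mk_one]
          intro h
          apply hres
          have h2 : e * ((g : ℤ) * (t : ℤ) ^ 2) = 4 * e * 0 - e * -((g : ℤ) * (t : ℤ) ^ 2) := by
            ring
          rw [h2]
          exact h
        · exact absurd rfl hjl)
    rw [Fintype.card_fin] at h
    rw [hBd, hGm]
    refine le_trans (le_of_eq ?_) h
    rw [Nat.cast_inj]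
    apply congrArg Finset.card
    ext x
    simp only [mem_filter]
  have hBd0 : 0 ≤ Bd := le_trans (Nat.cast_nonneg _) (hbd 0)
  -- the residues modulo the primes of `s 0`
  have hmaps : ∀ n ∈ T, (fun (n : ℕ) (p : ℕ) (_ : p ∈ (s 0).primeFactors) => n % p) n ∈
      Finset.pi (s 0).primeFactors (fun p => WG e a g p) := by
    intro n hn
    rw [Finset.mem_pi]
    intro p hp
    have hpp := Nat.prime_of_mem_primeFactors hp
    have hps := Nat.dvd_of_mem_primeFactors hp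
    have hfs := (hgood n hn).fs hpp hps
    have hzp := (mem_PS.1 hfs.1).1.1
    have hpI : Prime (p : ℤ) := Nat.prime_iff_prime_int.1 hpp
    unfold WG
    by_cases hpg : p ∣ g
    · rw [if_pos hpg, mem_range]
      exact Nat.mod_lt _ hpp.pos
    · rw [if_neg hpg, mem_filter, mem_range]
      refine ⟨Nat.mod_lt _ hpp.pos, ?_⟩
      have hTn := hT n hn
      have hpn : ¬ (p : ℤ) ∣ (n : ℤ) := by
        intro h
        have h1 := (hgood n hn).un p hpp hzp 0 1 hfs.2.1 (by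
          change (p : ℤ) ∣ e * (n : ℤ)
          exact Dvd.dvd.mul_left h _)
        exact absurd h1 (by decide)
      have hpge : ¬ (p : ℤ) ∣ (g : ℤ) * e := by
        intro h
        rcases hpI.dvd_or_dvd h with h | h
        · exact hpg (Int.natCast_dvd_natCast.1 h)
        · have := hαp p hpp hzp 0
          rw [hα] at this
          exact this h
      have hmem : p ∣ a ↔ jacobiSym ((g : ℤ) * (e * (n : ℤ))) p = 1 := by
        have hspl := hTn.2.2.2.2.2
        have hJ : ∀ q : ℕ, Jr (((g, t, n) : ℕ × ℕ × ℕ).1 * (e * (((g, t, n) : ℕ × ℕ × ℕ).2.2 : ℤ))) q = 1 ↔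
            jacobiSym ((g : ℤ) * (e * (n : ℤ))) q = 1 := by
          intro q
          unfold Jr
          norm_cast
        rw [← hspl]
        unfold spl
        rw [hTn.2.2.1]
        constructor
        · intro h
          obtain ⟨q, hq, hpq⟩ := (hpp.prime.dvd_finsetProd_iff _).1 h
          rw [mem_filter] at hq
          have hqp := (Nat.prime_dvd_prime_iff_eq hpp (Nat.prime_of_mem_primeFactors hq.1)).1 hpq
          rw [← hqp] at hq
          exact (hJ p).1 hq.2.2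
        · intro h
          exact dvd_prod_of_mem _ (mem_filter.2 ⟨hp, hpg, (hJ p).2 h⟩)
      have hjn : jacobiSym ((n % p : ℕ) : ℤ) p = jacobiSym (n : ℤ) p := by
        push_cast
        rw [← jacobiSym.mod_left]
      rw [hjn]
      have hmul : jacobiSym ((g : ℤ) * (e * (n : ℤ))) p = jacobiSym ((g : ℤ) * e) p * jacobiSym (n : ℤ) p := by
        rw [← jacobiSym.mul_left]
        congr 1
        ring
      rw [hmul] at hmem
      rcases jac_unit hpp hpge with h1 | h1 <;> rcases jac_unit hpp hpn with h2 | h2 <;>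
        rw [h1, h2] at hmem <;> rw [h1, h2]
      · rw [if_pos (hmem.2 (by norm_num))]; norm_num
      · rw [if_neg (fun h => absurd (hmem.1 h) (by norm_num))]; norm_num
      · rw [if_neg (fun h => absurd (hmem.1 h) (by norm_num))]; norm_num
      · rw [if_pos (hmem.2 (by norm_num))]; norm_num
  have hone : ∀ φ ∈ Finset.pi (s 0).primeFactors (fun p => WG e a g p),
      (((T.filter (fun n : ℕ => (fun (n : ℕ) (p : ℕ) (_ : p ∈ (s 0).primeFactors) => n % p) n =
        φ)).card : ℕ) : ℝ) ≤ Bd := by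
    intro φ _
    rcases (T.filter (fun n : ℕ => (fun (n : ℕ) (p : ℕ) (_ : p ∈ (s 0).primeFactors) => n % p) n =
        φ)).eq_empty_or_nonempty with he2 | ⟨q, hq⟩
    · rw [he2, card_empty, Nat.cast_zero]
      exact hBd0
    · refine le_trans ?_ (hbd q)
      rw [Nat.cast_le]
      apply card_le_card
      intro n hn
      rw [mem_filter] at hq hn
      have hTn := hT n hn.1
      rw [mem_filter]
      refine ⟨hTn.1, ?_, ?_⟩
      · have h1 : ((m1 : ℕ) : ℤ) ∣ (n : ℤ) - (q : ℤ) := by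
          rw [hm1]
          refine cong hαp hzy hs2 hv2 hu2 (hg2 n hn.1) (hg2 q hq.1) ?_
          intro j
          rw [← hff n j, ← hff q j]
          unfold ff
          ring
        have h2 : ((s 0 : ℕ) : ℤ) ∣ (n : ℤ) - (q : ℤ) := by
          have h3 := Pool.Agent.W372.RK2.sq_pow_dvd (dv_squarefree (hs' 0)) 1 ((n : ℤ) - (q : ℤ))
            (fun p hp hpd => by
              rw [pow_one]
              have hpm : p ∈ (s 0).primeFactors := Nat.mem_primeFactors.2 ⟨hp, hpd, hs0 0⟩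
              have h3 := congrFun (congrFun hn.2 p) hpm
              have h4 := congrFun (congrFun hq.2 p) hpm
              simp only at h3 h4
              exact Nat.modEq_iff_dvd.1 (show q ≡ n [MOD p] from h4.trans h3.symm))
          rwa [pow_one] at h3
        have h3 : ((m : ℕ) : ℤ) ∣ (n : ℤ) - (q : ℤ) := by
          rw [hm, Nat.cast_mul]
          exact (Nat.isCoprime_iff_coprime.2 hcop).mul_dvd h2 h1
        exact (Nat.modEq_iff_dvd.2 h3).symm
      · intro p hpP hpM j hpf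
        have hp := (mem_PS.1 hpP).2
        apply hpM
        rw [hM]
        apply Dvd.dvd.mul_right
        rw [hm]
        apply Dvd.dvd.mul_left
        rw [hm1]
        refine Dvd.dvd.trans ?_ (dvd_prod_of_mem _ (mem_univ j))
        rw [mj_eq]
        rw [hff n j] at hpf
        have gn := hg2 n hn.1
        by_cases h2 : (p : ℤ) ^ 2 ∣ f3 e (g, t, n) j.succ
        · have h3 : p ∣ v' j := by
            rw [← gn.hv]
            exact (dvd_S2 hp).2 ⟨hpP, h2⟩
          exact (((h3.pow two_ne_zero).mul_left _).mul_right _)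
        · have h3 : p ∣ s' j := by
            rw [← gn.hs]
            exact (dvd_S1 hp).2 ⟨hpP, hpf, h2⟩
          exact ((h3.mul_right _).mul_right _)
  have hcard : (T.card : ℝ) ≤
      ((Finset.pi (s 0).primeFactors (fun p => WG e a g p)).card : ℝ) * Bd := by
    rw [card_eq_sum_card_fiberwise (f := fun (n : ℕ) (p : ℕ) (_ : p ∈ (s 0).primeFactors) =>
      n % p) (t := Finset.pi (s 0).primeFactors (fun p => WG e a g p)) hmaps, Nat.cast_sum]
    refine (sum_le_sum hone).trans ?_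
    rw [sum_const, nsmul_eq_mul]
  have hpi := prod_WG he a g hg0 hc (hs' 0)
  -- the product over the primes of `M`
  have hq1 : ∀ p : ℕ, z < p → (1 : ℝ) ≤ (p : ℝ) / ((p : ℝ) - (2 : ℕ)) := by
    intro p hp
    have h1 : ((2 : ℕ) : ℝ) < p := by exact_mod_cast lt_of_le_of_lt hc hp
    rw [le_div_iff₀ (by linarith)]
    have : (0 : ℝ) ≤ ((2 : ℕ) : ℝ) := Nat.cast_nonneg _
    linarith
  have hGmb : Gm ≤ (∏ j, ((s j * gw 1 2 (s j)) * (v j * gw 1 2 (v j)))) *
      2 ^ g.primeFactors.card := by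
    have h1 : Gm ≤ (∏ p ∈ (∏ j, mj c0 s v u j).primeFactors.filter (fun p => p ∈ PS z y),
        (p : ℝ) / ((p : ℝ) - (2 : ℕ))) * ∏ p ∈ g.primeFactors.filter (fun p => p ∈ PS z y),
        (p : ℝ) / ((p : ℝ) - (2 : ℕ)) := by
      rw [hGm]
      apply prod_union_le (fun p : ℕ => (p : ℝ) / ((p : ℝ) - (2 : ℕ)))
      · intro p hp
        rw [mem_filter] at hp
        have hpp := Nat.prime_of_mem_primeFactors hp.1
        have hpM := Nat.dvd_of_mem_primeFactors hp.1
        have hall : (∏ j, mj c0 s v u j) ≠ 0 :=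
          prod_ne_zero_iff.2 fun j _ => mj_ne_zeroG hs hv hu j
        have hin : ∀ j, p ∣ mj c0 s v u j → p ∈ (∏ j, mj c0 s v u j).primeFactors := fun j h =>
          Nat.mem_primeFactors.2 ⟨hpp, h.trans (dvd_prod_of_mem _ (mem_univ j)), hall⟩
        rw [mem_union, mem_filter, mem_filter]
        rw [hM] at hpM
        rcases hpp.dvd_mul.1 hpM with h | h
        · left
          refine ⟨?_, hp.2⟩
          rw [hm] at h
          rcases hpp.dvd_mul.1 h with h | h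
          · apply hin 0
            rw [mj_eq]
            exact (h.mul_right _).mul_right _
          · rw [hm1] at h
            obtain ⟨j, -, hj⟩ := (hpp.prime.dvd_finsetProd_iff _).1 h
            apply hin j.succ
            rw [mj_eq] at hj ⊢
            rw [hsd, hvd, hud] at hj
            exact hj
        · rcases hpp.dvd_mul.1 h with h | h
          · right
            exact ⟨Nat.mem_primeFactors.2 ⟨hpp, h, hg0⟩, hp.2⟩
          · left
            refine ⟨?_, hp.2⟩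
            apply hin 0
            rw [mj_eq]
            have hf0 : (p : ℤ) ∣ f3 e (g, t, n0) 0 := Int.natCast_dvd_natCast.2 h
            by_cases h2 : (p : ℤ) ^ 2 ∣ f3 e (g, t, n0) 0
            · have h3 : p ∣ v 0 := by
                rw [← gn0.hv]
                exact (dvd_S2 hpp).2 ⟨hp.2, h2⟩
              exact (((h3.pow two_ne_zero).mul_left _).mul_right _)
            · have h3 : p ∣ s 0 := by
                rw [← gn0.hs]
                exact (dvd_S1 hpp).2 ⟨hp.2, hf0, h2⟩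
              exact ((h3.mul_right _).mul_right _)
      · intro p hp
        apply hq1
        rcases mem_union.1 hp with hp | hp
        · exact (mem_PS.1 (mem_filter.1 hp).2).1.1
        · exact (mem_PS.1 (mem_filter.1 hp).2).1.1
    rw [prod_prG hs hv hu gn0 2] at h1
    refine h1.trans (mul_le_mul_of_nonneg_left ?_ ?_)
    · calc ∏ p ∈ g.primeFactors.filter (fun p => p ∈ PS z y), (p : ℝ) / ((p : ℝ) - (2 : ℕ)) ≤
          ∏ p ∈ g.primeFactors.filter (fun p => p ∈ PS z y), (2 : ℝ) := by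
            apply prod_le_prod
            · intro p hp
              exact zero_le_one.trans (hq1 p (mem_PS.1 (mem_filter.1 hp).2).1.1)
            · intro p hp
              have h4 := (mem_PS.1 (mem_filter.1 hp).2).1.1
              have h5 : (6 : ℝ) < p := by exact_mod_cast lt_of_le_of_lt hz h4
              push_cast
              rw [div_le_iff₀ (by linarith)]
              linarith
        _ = 2 ^ (g.primeFactors.filter (fun p => p ∈ PS z y)).card := prod_const _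
        _ ≤ 2 ^ g.primeFactors.card :=
            pow_le_pow_right₀ (by norm_num) (card_le_card (filter_subset _ _))
    · exact prod_nonneg fun j _ => mul_nonneg (mul_nonneg (Nat.cast_nonneg _) (hgs j))
        (mul_nonneg (Nat.cast_nonneg _) (hgv j))
  obtain ⟨PR, hPR⟩ : ∃ PR : ℝ, PR = ∏ j, ((s j * gw 1 2 (s j)) * (v j * gw 1 2 (v j))) := ⟨_, rfl⟩
  rw [← hPR] at hGmb
  have hPR0 : 0 ≤ PR := by
    rw [hPR]
    exact prod_nonneg fun j _ => mul_nonneg (mul_nonneg (Nat.cast_nonneg _) (hgs j))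
        (mul_nonneg (Nat.cast_nonneg _) (hgv j))
  have hGm0 : 0 ≤ Gm := by
    rw [hGm]
    exact prod_nonneg fun p hp => zero_le_one.trans (hq1 p (mem_PS.1 (mem_filter.1 hp).2).1.1)
  have hfin : (T.card : ℝ) ≤ (s 0 * (1 / 2) ^ (s 0).primeFactors.card * 2 ^ g.primeFactors.card) *
      (C * (((X : ℝ) ^ 4 / g) / m) * (PR * 2 ^ g.primeFactors.card) / (Real.log y) ^ 2) := by
    refine hcard.trans (mul_le_mul hpi ?_ hBd0 (by positivity))
    rw [hBd]
    gcongr
  refine hfin.trans (le_of_eq ?_)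
  have hmr : (m : ℝ) = s 0 * ((s 1 * (v 1 : ℝ) ^ 2 * u 1) * (s 2 * (v 2 : ℝ) ^ 2 * u 2)) := by
    rw [hm, hm1e]; push_cast; ring
  have h4p : (4 : ℝ) ^ g.primeFactors.card = 2 ^ g.primeFactors.card * 2 ^ g.primeFactors.card := by
    rw [← mul_pow]; norm_num
  have r1 : ((s 0 : ℕ) : ℝ) ≠ 0 := Nat.cast_ne_zero.2 (hs0 0)
  have r2 : ((s 1 : ℕ) : ℝ) ≠ 0 := Nat.cast_ne_zero.2 (hs0 1)
  have r3 : ((s 2 : ℕ) : ℝ) ≠ 0 := Nat.cast_ne_zero.2 (hs0 2)
  have r4 : ((v 1 : ℕ) : ℝ) ≠ 0 := Nat.cast_ne_zero.2 (hv0 1)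
  have r5 : ((v 2 : ℕ) : ℝ) ≠ 0 := Nat.cast_ne_zero.2 (hv0 2)
  have r6 : ((u 1 : ℕ) : ℝ) ≠ 0 := Nat.cast_ne_zero.2 (hu0 1)
  have r7 : ((u 2 : ℕ) : ℝ) ≠ 0 := Nat.cast_ne_zero.2 (hu0 2)
  have key : (s 0 : ℝ) * PR / m = ((s 0 : ℝ) * gw 1 2 (s 0)) * ((v 0 : ℝ) * gw 1 2 (v 0)) *
        (gw 1 2 (s 1) * gw 1 2 (s 2)) * ((gw 1 2 (v 1) / v 1) * (gw 1 2 (v 2) / v 2)) *
        ((1 / (u 1 : ℝ)) * (1 / (u 2 : ℝ))) := by
    rw [hPR, Fin.prod_univ_three, hmr]
    field_simp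
  calc (s 0 * (1 / 2) ^ (s 0).primeFactors.card * 2 ^ g.primeFactors.card) *
      (C * (((X : ℝ) ^ 4 / g) / m) * (PR * 2 ^ g.primeFactors.card) / (Real.log y) ^ 2) =
      C * ((X : ℝ) ^ 4 / g) * (2 ^ g.primeFactors.card * 2 ^ g.primeFactors.card) *
        (1 / 2) ^ (s 0).primeFactors.card * ((s 0 : ℝ) * PR / m) / (Real.log y) ^ 2 := by ring
    _ = _ := by
      rw [key, ← h4p]
      ring

end Pool.Agent.V7H30.CY
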