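import Pool.Agent.V7H30.CY.P4
import Pool.Agent.V7H45.CY.Spec3

/-!
# Parametrisation of the curves with a point of order 4 by triples `(g, t, n)`
-/

set_option autoImplicit false

namespace Pool.Agent.V7H30.CY

open Finset Pool.Agent.W262.RK Pool.Agent.W307.RT Pool.Agent.V7H45.CY

/-- the sign of an integer -/
def sg (S : ℤ) : ℤ := if 0 ≤ S then 1 else -1

/-- the triple of a weighted pair -/
def tri (x : ℤ × ℤ) : ℤ × (ℕ × ℕ × ℕ) :=
  (sg x.2, (Int.gcd x.1 x.2, x.1.natAbs / Int.gcd x.1 x.2, x.2.natAbs / Int.gcd x.1 x.2))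

theorem sg_or (S : ℤ) : sg S = 1 ∨ sg S = -1 := by
  unfold sg
  split <;> simp

theorem sg_mul (S : ℤ) : sg S * (S.natAbs : ℤ) = S := by
  unfold sg
  split
  · omega
  · omega

theorem tri_spec {T S : ℤ} (hT : 0 < T) (hS : S ≠ 0)
    (hpr : ∀ p : ℕ, p.Prime → ¬ ((p : ℤ) ∣ T ∧ (p : ℤ) ^ 2 ∣ S)) :
    ∃ g t n : ℕ, tri (T, S) = (sg S, (g, t, n)) ∧ 1 ≤ g ∧ 1 ≤ t ∧ 1 ≤ n ∧
      T = g * t ∧ S = g * (sg S * n) ∧ Squarefree g ∧ t.Coprime n ∧ g.Coprime n := by
  have hg0 : 0 < Int.gcd T S := Int.gcd_pos_of_ne_zero_left _ hT.ne'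
  have h1 : Int.gcd T S ∣ T.natAbs := Int.natCast_dvd.1 (Int.gcd_dvd_left _ _)
  have h2 : Int.gcd T S ∣ S.natAbs := Int.natCast_dvd.1 (Int.gcd_dvd_right _ _)
  obtain ⟨g, hg⟩ : ∃ g : ℕ, g = Int.gcd T S := ⟨_, rfl⟩
  rw [← hg] at h1 h2 hg0
  obtain ⟨t, ht⟩ := h1
  obtain ⟨n, hn⟩ := h2
  have e1 : T.natAbs / g = t := by rw [ht]; exact Nat.mul_div_cancel_left t hg0
  have e2 : S.natAbs / g = n := by rw [hn]; exact Nat.mul_div_cancel_left n hg0
  have hT' : T = g * t := by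
    have : (T.natAbs : ℤ) = T := by omega
    rw [← this, ht]; push_cast; ring
  have hS' : S = g * (sg S * n) := by
    have := sg_mul S
    rw [hn] at this
    push_cast at this
    linarith
  have ht0 : 1 ≤ t := by
    rcases Nat.eq_zero_or_pos t with h | h
    · rw [h] at hT'; simp at hT'; omega
    · exact h
  have hn0 : 1 ≤ n := by
    rcases Nat.eq_zero_or_pos n with h | h
    · rw [h] at hS'; simp at hS'; exact absurd hS' hS
    · exact h
  -- a prime divisor of `g` does not divide `n`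
  have key : ∀ p : ℕ, p.Prime → p ∣ g → ¬ p ∣ n := by
    intro p hp hpg hpn
    apply hpr p hp
    constructor
    · rw [hT']
      exact Dvd.dvd.mul_right (Int.natCast_dvd_natCast.2 hpg) _
    · have h3 : p * p ∣ g * n := Nat.mul_dvd_mul hpg hpn
      rw [← hn] at h3
      have h4 : ((p * p : ℕ) : ℤ) ∣ S := Int.natCast_dvd.2 h3
      have h5 : ((p : ℤ)) ^ 2 = ((p * p : ℕ) : ℤ) := by push_cast; ring
      rw [h5]; exact h4
  have hgn : g.Coprime n := by
    rw [Nat.coprime_iff_gcd_eq_one]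
    by_contra h
    obtain ⟨p, hp, hpd⟩ := Nat.exists_prime_and_dvd h
    exact key p hp (hpd.trans (Nat.gcd_dvd_left _ _)) (hpd.trans (Nat.gcd_dvd_right _ _))
  have hgsq : Squarefree g := by
    rw [Nat.squarefree_iff_prime_squarefree]
    intro p hp hpp
    apply hpr p hp
    have h3 : p ∣ g := (Dvd.intro _ rfl).trans hpp
    constructor
    · rw [hT']
      exact Dvd.dvd.mul_right (Int.natCast_dvd_natCast.2 h3) _
    · have h4 : ((p * p : ℕ) : ℤ) ∣ S := by
        apply Int.natCast_dvd.2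
        rw [hn]
        exact Dvd.dvd.mul_right hpp _
      have h5 : ((p : ℤ)) ^ 2 = ((p * p : ℕ) : ℤ) := by push_cast; ring
      rw [h5]; exact h4
  have htn : t.Coprime n := by
    rw [Nat.coprime_iff_gcd_eq_one]
    by_contra h
    obtain ⟨p, hp, hpd⟩ := Nat.exists_prime_and_dvd h
    have hpt := hpd.trans (Nat.gcd_dvd_left _ _)
    have hpn := hpd.trans (Nat.gcd_dvd_right _ _)
    have hpT : (p : ℤ) ∣ T := by
      rw [hT']
      exact Dvd.dvd.mul_left (Int.natCast_dvd_natCast.2 hpt) _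
    have hpS : (p : ℤ) ∣ S := by
      rw [hS']
      exact Dvd.dvd.mul_left (Dvd.dvd.mul_left (Int.natCast_dvd_natCast.2 hpn) _) _
    have hpg : p ∣ g := by
      rw [hg]
      exact Int.natCast_dvd_natCast.1 (Int.dvd_coe_gcd hpT hpS)
    exact key p hp hpg hpn
  refine ⟨g, t, n, ?_, hg0, ht0, hn0, hT', hS', hgsq, htn, hgn⟩
  unfold tri
  simp only
  rw [← hg, e1, e2]

theorem q4_of (h : S_P4) : S_Q4 := by
  obtain ⟨C, F, hF⟩ := h
  refine ⟨C, fun c => tri (F c), fun H => ⟨?_, ?_⟩⟩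
  · intro x
    refine le_trans (card_le_one.2 ?_) (by norm_num)
    intro c hc c' hc'
    rw [mem_filter] at hc hc'
    obtain ⟨hinj, hall⟩ := hF H
    obtain ⟨k1, k2, -, k3, -⟩ := hall c hc.1
    obtain ⟨k1', k2', -, k3', -⟩ := hall c' hc'.1
    apply hinj (Finset.mem_coe.2 hc.1) (Finset.mem_coe.2 hc'.1)
    obtain ⟨g, t, n, h1, -, -, -, h2, h3, -⟩ := tri_spec k1 k2 k3
    obtain ⟨g', t', n', h1', -, -, -, h2', h3', -⟩ := tri_spec k1' k2' k3'
    have h4 : (sg (F c).2, (g, t, n)) = (sg (F c').2, (g', t', n')) := by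
      rw [← h1, ← h1']
      exact hc.2.trans hc'.2.symm
    simp only [Prod.mk.injEq] at h4
    obtain ⟨h5, rfl, rfl, rfl⟩ := h4
    apply Prod.ext
    · rw [h2, h2']
    · rw [h3, h3', h5]
  · intro c hc
    obtain ⟨-, hall⟩ := hF H
    obtain ⟨k1, k2, k4, k3, k5, k6, k7⟩ := hall c hc
    obtain ⟨g, t, n, h1, hg0, ht0, hn0, h2, h3, hsq, h4, h5⟩ := tri_spec k1 k2 k3
    have h1' : tri (F c) = (sg (F c).2, (g, t, n)) := h1
    simp only [h1']
    have hM : M3 (g, t, n) = (F c).1 ^ 2 := by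
      unfold M3
      rw [h2]; push_cast; ring
    have hN : N3 (sg (F c).2) (g, t, n) = 4 * (F c).2 := by
      unfold N3
      simp only
      linarith
    refine ⟨sg_or _, ⟨hg0, ht0, hn0, hsq, h4, h5, ?_⟩, ?_, ?_, ?_⟩
    · intro h6
      apply k4
      simp only at h6
      have h7 : (g : ℤ) * (4 * (sg (F c).2 * (n : ℤ)) - (g : ℤ) * (t : ℤ) ^ 2) = 0 := by
        rw [h6, mul_zero]
      have h8 : (F c).1 ^ 2 = (g : ℤ) * ((g : ℤ) * (t : ℤ) ^ 2) := by rw [h2]; ring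
      have h9 : 4 * (F c).2 = (g : ℤ) * (4 * (sg (F c).2 * (n : ℤ))) := by linarith
      rw [h8, h9]
      linarith
    · have h6 : (F c).1.natAbs = g * t := by rw [h2]; exact Int.natAbs_natCast (g * t)
      rw [h6] at k5
      exact k5
    · have h6 : (F c).2.natAbs = g * n := by
        rw [h3, Int.natAbs_mul, Int.natAbs_mul, Int.natAbs_natCast, Int.natAbs_natCast]
        rcases sg_or (F c).2 with h7 | h7 <;> rw [h7] <;> simp
      rw [h6] at k6
      exact k6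
    · have h8 : EAB (-(M3 (tri (F c)).2)) (-(N3 (tri (F c)).1 (tri (F c)).2)) =
          EAB (-((F c).1 ^ 2)) (-(4 * (F c).2)) := by
        rw [h1', ← hM, ← hN]
      rw [h8]
      exact k7

theorem t_Q4 : S_Q4 := q4_of t_P4

end Pool.Agent.V7H30.CY
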