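import Pool.Agent.V7H30.CY.Com
import Pool.Agent.V7H67.CY.ISO2

/-!
# Parametrisation of the curves with a point of order 12
-/

set_option autoImplicit false

namespace Pool.Agent.V7H30.CY

open Finset Pool.Agent.W262.RK Pool.Agent.W307.RT Pool.Agent.V7H45.CY WeierstrassCurve.Affine
open Pool.Agent.W605.RT (sh_eq sh_negY two_tors int_root int_sqrt root_sq)
open Pool.Agent.V7H54.C8 (dbl)

theorem core12 (A B : ℤ) (hD : 4 * A ^ 3 + 27 * B ^ 2 ≠ 0) (hT : HasC 12 (Sh A B)) :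
    ∃ w : ℤ × ℤ, IsCoprime w.1 w.2 ∧ ∃ s e : ℚ, RC A B (Mc12 w.1 w.2) (Nc12 w.1 w.2) s e := by
  obtain ⟨P, hP⟩ := hT
  have h4 : addOrderOf (3 • P) = 4 := by
    rw [addOrderOf_nsmul' P (by norm_num), hP]; norm_num
  have h2 : addOrderOf (3 • P + 3 • P) = 2 := by
    rw [← two_nsmul (3 • P), addOrderOf_nsmul' _ two_ne_zero, h4]
    norm_num
  have h3 : addOrderOf (4 • P) = 3 := by
    rw [addOrderOf_nsmul' P (by norm_num), hP]; norm_num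
  have n2 : 3 • P + 3 • P ≠ 0 := by
    intro h
    rw [h, addOrderOf_zero] at h2
    norm_num at h2
  obtain ⟨x, y, hxy, hPx, hy, hxy', x', y', h', hP2, hx'⟩ := dbl n2
  obtain ⟨e, h1, hPP⟩ := two_tors h2
  have hx1 : x' = e := by
    rw [hPP] at hP2
    exact ((Point.some.inj hP2).1).symm
  have r1 : e ^ 3 + A * e + B = 0 := by
    have := sh_eq.mp h1.1
    linarith
  rw [hx1] at hx'
  obtain ⟨s, t, hs0, ht0, hsx, hs, ht, hne⟩ := half_four hD hy hxy' r1 hx'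
  obtain ⟨x3, y3, hy3, hxy3, h33⟩ := Pool.Agent.W135.RT.ord3 _ h3
  obtain ⟨u, hu⟩ : ∃ u : ℚ, u = x3 - e := ⟨_, rfl⟩
  have hx3 : x3 = u + e := by rw [hu]; ring
  have hAq : (A : ℚ) = s ^ 2 - 3 * e ^ 2 := by linarith
  have hy3' : y3 ^ 2 = u * (u ^ 2 + 3 * e * u + s ^ 2) := by
    rw [hxy3, hx3]
    linear_combination r1 + u * hAq
  have hu0 : u ≠ 0 := by
    intro h
    apply hy3
    have : y3 ^ 2 = 0 := by rw [hy3', h]; ring
    exact (pow_eq_zero_iff two_ne_zero).1 this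
  have k0 : 4 * u * y3 ^ 2 = (u ^ 2 - s ^ 2) ^ 2 := by
    rw [hx3, hAq] at h33
    linear_combination (-1) * h33 + (4 * u - 12 * (u + e)) * hy3'
  have hy2 : (2 * y3) ≠ 0 := mul_ne_zero two_ne_zero hy3
  obtain ⟨ρ, hρ⟩ : ∃ ρ : ℚ, ρ = (u ^ 2 - s ^ 2) / (2 * y3) := ⟨_, rfl⟩
  have hρ1 : ρ * (2 * y3) = u ^ 2 - s ^ 2 := by rw [hρ, div_mul_cancel₀ _ hy2]
  have hρ2 : ρ ^ 2 = u := by
    have : (2 * y3) ^ 2 * ρ ^ 2 = (2 * y3) ^ 2 * u := by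
      have h5 : (2 * y3) ^ 2 * ρ ^ 2 = (ρ * (2 * y3)) ^ 2 := by ring
      rw [h5, hρ1, ← k0]; ring
    exact mul_left_cancel₀ (pow_ne_zero 2 hy2) this
  have hρ0 : ρ ≠ 0 := by
    intro h
    apply hu0
    rw [← hρ2, h]; norm_num
  obtain ⟨q, hq⟩ : ∃ q : ℚ, q = y3 / u := ⟨_, rfl⟩
  obtain ⟨p, hp⟩ : ∃ p : ℚ, p = (u - s) / ρ := ⟨_, rfl⟩
  obtain ⟨r, hr⟩ : ∃ r : ℚ, r = (u + s) / ρ := ⟨_, rfl⟩
  have hq0 : q ≠ 0 := by rw [hq]; exact div_ne_zero hy3 hu0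
  have hqu : y3 = q * u := by rw [hq]; field_simp
  have hpρ : p * ρ = u - s := by rw [hp, div_mul_cancel₀ _ hρ0]
  have hrρ : r * ρ = u + s := by rw [hr, div_mul_cancel₀ _ hρ0]
  have hq2 : q ^ 2 * u = u ^ 2 + 3 * e * u + s ^ 2 := by
    have : u * (q ^ 2 * u) = u * (u ^ 2 + 3 * e * u + s ^ 2) := by
      rw [← hy3', hqu]; ring
    exact mul_left_cancel₀ hu0 this
  have hp2 : p ^ 2 * u = (u - s) ^ 2 := by
    have : p ^ 2 * u = (p * ρ) ^ 2 := by rw [mul_pow, hρ2]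
    rw [this, hpρ]
  have hr2 : r ^ 2 * u = (u + s) ^ 2 := by
    have : r ^ 2 * u = (r * ρ) ^ 2 := by rw [mul_pow, hρ2]
    rw [this, hrρ]
  have hpqr : p * r = q * (p + r) := by
    have : (ρ * ρ) * (p * r) = (ρ * ρ) * (q * (p + r)) := by
      have h5 : (ρ * ρ) * (p * r) = (p * ρ) * (r * ρ) := by ring
      have h6 : (ρ * ρ) * (q * (p + r)) = ρ * q * (p * ρ + r * ρ) := by ring
      rw [h5, h6, hpρ, hrρ]
      have h7 : (u - s) * (u + s) = ρ * (2 * y3) := by rw [hρ1]; ring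
      rw [h7, hqu]; ring
    exact mul_left_cancel₀ (mul_ne_zero hρ0 hρ0) this
  have d1 : q ^ 2 - p ^ 2 = t ^ 2 := by
    have : u * (q ^ 2 - p ^ 2) = u * t ^ 2 := by
      rw [ht]; linear_combination hq2 - hp2
    exact mul_left_cancel₀ hu0 this
  have d2 : r ^ 2 - p ^ 2 = 4 * s := by
    have : u * (r ^ 2 - p ^ 2) = u * (4 * s) := by
      linear_combination hr2 - hp2
    exact mul_left_cancel₀ hu0 this
  have g1 : p * (r - q) = q * r := by linear_combination hpqr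
  have g0 : r - q ≠ 0 := by
    intro h
    rw [h, mul_zero] at g1
    have : r = q := by linarith
    rw [this] at g1
    exact mul_ne_zero hq0 hq0 g1.symm
  have g2 : t ^ 2 * (r - q) ^ 2 = q ^ 3 * (q - 2 * r) := by
    rw [← d1]
    linear_combination (-(p * (r - q)) - q * r) * g1
  have g3 : 4 * s * (r - q) ^ 2 = r ^ 3 * (r - 2 * q) := by
    rw [← d2]
    linear_combination (-(p * (r - q)) - q * r) * g1
  -- the parameters
  obtain ⟨χ, hχ⟩ : ∃ χ : ℚ, χ = t * (r - q) / q ^ 2 := ⟨_, rfl⟩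
  have hχq : χ ^ 2 * q = q - 2 * r := by
    have h5 : χ * q ^ 2 = t * (r - q) := by rw [hχ, div_mul_cancel₀ _ (pow_ne_zero 2 hq0)]
    have h6 : q ^ 3 * (χ ^ 2 * q) = q ^ 3 * (q - 2 * r) := by
      rw [← g2]
      have : q ^ 3 * (χ ^ 2 * q) = (χ * q ^ 2) ^ 2 := by ring
      rw [this, h5]; ring
    exact mul_left_cancel₀ (pow_ne_zero 3 hq0) h6
  obtain ⟨a, ha⟩ : ∃ a : ℤ, a = χ.den := ⟨_, rfl⟩
  obtain ⟨b, hb⟩ : ∃ b : ℤ, b = χ.num := ⟨_, rfl⟩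
  have hco : IsCoprime a b := by
    rw [ha, hb, Int.isCoprime_iff_gcd_eq_one, Int.gcd_comm]
    exact χ.reduced
  have ha0 : (a : ℚ) ≠ 0 := by rw [ha]; exact_mod_cast χ.den_nz
  have hab : χ * a = b := by
    rw [ha, hb]
    exact_mod_cast Rat.mul_den_eq_num χ
  obtain ⟨m, hm⟩ : ∃ m : ℚ, m = q / (2 * a ^ 2) := ⟨_, rfl⟩
  have hm0 : m ≠ 0 := by
    rw [hm]; exact div_ne_zero hq0 (mul_ne_zero two_ne_zero (pow_ne_zero 2 ha0))
  have e1 : q = 2 * a ^ 2 * m := by rw [hm]; field_simp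
  have e2 : q - 2 * r = 2 * b ^ 2 * m := by
    rw [← hχq, ← hab, e1]; ring
  have e3 : r = (a ^ 2 - b ^ 2) * m := by linear_combination (1 / 2) * e1 - (1 / 2) * e2
  have hc0 : ((a : ℚ) ^ 2 + (b : ℚ) ^ 2) ≠ 0 := by positivity
  obtain ⟨l, hl⟩ : ∃ l : ℚ, l = m / (a ^ 2 + b ^ 2) := ⟨_, rfl⟩
  have hl0 : l ≠ 0 := by rw [hl]; exact div_ne_zero hm0 hc0
  have hml : m = l * (a ^ 2 + b ^ 2) := by rw [hl, div_mul_cancel₀ _ hc0]
  have hrq : (r - q) ^ 2 = ((a ^ 2 + b ^ 2) * m) ^ 2 := by rw [e3, e1]; ring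
  have hrq0 : ((a ^ 2 + b ^ 2) * m) ^ 2 ≠ 0 := pow_ne_zero 2 (mul_ne_zero hc0 hm0)
  have e4 : t ^ 2 = l ^ 2 * (Mc12 a b : ℤ) := by
    have : t ^ 2 * ((a ^ 2 + b ^ 2) * m) ^ 2 =
        l ^ 2 * (Mc12 a b : ℤ) * ((a ^ 2 + b ^ 2) * m) ^ 2 := by
      rw [← hrq, g2, e2, hrq, e1]
      unfold Mc12; push_cast; rw [hml]; ring
    exact mul_right_cancel₀ hrq0 this
  have e5 : 4 * s = l ^ 2 * (Nc12 a b : ℤ) := by
    have : 4 * s * ((a ^ 2 + b ^ 2) * m) ^ 2 =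
        l ^ 2 * (Nc12 a b : ℤ) * ((a ^ 2 + b ^ 2) * m) ^ 2 := by
      rw [← hrq, g3, hrq, e3, e1]
      unfold Nc12; push_cast; rw [hml]; ring
    exact mul_right_cancel₀ hrq0 this
  refine ⟨(a, b), hco, l, e, hl0, ?_, ?_, ?_, r1, ?_, ?_⟩
  · change Mc12 a b ≠ 0
    intro h
    apply ht0
    rw [h] at e4
    have h5 : t ^ 2 = 0 := by rw [e4]; simp
    exact (pow_eq_zero_iff two_ne_zero).1 h5
  · change Nc12 a b ≠ 0
    intro h
    apply hs0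
    rw [h] at e5
    have h5 : 4 * s = 0 := by rw [e5]; simp
    linarith
  · change Mc12 a b ≠ Nc12 a b
    intro h
    apply hne
    rw [h, ← e5] at e4
    linarith
  · change 6 * e = l ^ 2 * (2 * (Mc12 a b : ℤ) - (Nc12 a b : ℤ))
    linear_combination (-2) * ht + 2 * e4 - e5
  · change 16 * (3 * e ^ 2 + A) = l ^ 4 * ((Nc12 a b : ℤ) : ℚ) ^ 2
    rw [← hs]
    linear_combination (4 * s + l ^ 2 * (Nc12 a b : ℤ)) * e5

theorem bez12 {a b : ℤ} (hco : IsCoprime a b) : ∃ x y : ℤ, x * Mc12 a b + y * Nc12 a b = 48 := by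
  have c1 : IsCoprime (a ^ 6) ((b ^ 2 - a ^ 2) ^ 3 * (b ^ 2 + 3 * a ^ 2)) := by
    apply IsCoprime.pow_left
    apply IsCoprime.mul_right
    · apply IsCoprime.pow_right
      have h2 : IsCoprime a (b ^ 2 + a * (-a)) := by
        rw [IsCoprime.add_mul_left_right_iff]
        exact hco.pow_right
      rwa [show b ^ 2 + a * (-a) = b ^ 2 - a ^ 2 by ring] at h2
    · have h2 : IsCoprime a (b ^ 2 + a * (3 * a)) := by
        rw [IsCoprime.add_mul_left_right_iff]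
        exact hco.pow_right
      rwa [show b ^ 2 + a * (3 * a) = b ^ 2 + 3 * a ^ 2 by ring] at h2
  have c2 : IsCoprime (b ^ 2) ((b ^ 2 - a ^ 2) ^ 3) := by
    apply IsCoprime.pow
    have h2 : IsCoprime b (-(a ^ 2) + b * b) := by
      rw [IsCoprime.add_mul_left_right_iff]
      exact (hco.symm.pow_right).neg_right
    rwa [show -(a ^ 2) + b * b = b ^ 2 - a ^ 2 by ring] at h2
  obtain ⟨x3, y3, h3⟩ := c1
  obtain ⟨x2, y2, h2⟩ := c2
  obtain ⟨p, q, h1⟩ := (hco.symm.pow (m := 2) (n := 2))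
  refine ⟨(3 * x2 + y2 * (b ^ 2 - a ^ 2) ^ 3 * (3 * p - q)) * x3,
    16 * ((3 * x2 + y2 * (b ^ 2 - a ^ 2) ^ 3 * (3 * p - q)) * b ^ 2 * y3 + y2 * q), ?_⟩
  unfold Mc12 Nc12
  have h4 : (3 * p - q) * b ^ 2 + q * (b ^ 2 + 3 * a ^ 2) = 3 := by linear_combination 3 * h1
  linear_combination 16 * (3 * x2 + y2 * (b ^ 2 - a ^ 2) ^ 3 * (3 * p - q)) * b ^ 2 * h3 +
    16 * y2 * (b ^ 2 - a ^ 2) ^ 3 * h4 + 48 * h2

theorem ineq12 {x y K : ℝ} (hx : 0 ≤ x) (hy : 0 ≤ y) (hK : 0 ≤ K) (h1 : 16 * x ^ 3 * y ≤ 672 * K)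
    (h2 : |(y - x) ^ 3 * (y + 3 * x)| ≤ 768 * K) : x ^ 4 ≤ 2048 * K ∧ y ^ 4 ≤ 32768 * K := by
  have h3 : |y - x| ^ 3 * (y + 3 * x) ≤ 768 * K := by
    rw [abs_mul, abs_pow, abs_of_nonneg (by positivity : 0 ≤ y + 3 * x)] at h2
    exact h2
  have hX : x ^ 4 ≤ 2048 * K := by
    rcases le_total x (2 * y) with h | h
    · have : x ^ 4 ≤ x ^ 3 * (2 * y) := by
        calc x ^ 4 = x ^ 3 * x := by ring
          _ ≤ _ := by gcongr
      linarith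
    · have h4 : x / 2 ≤ |y - x| := by
        rw [abs_sub_comm]
        have := le_abs_self (x - y)
        linarith
      have h5 : (x / 2) ^ 3 * (3 * x) ≤ |y - x| ^ 3 * (y + 3 * x) := by
        gcongr
        linarith
      have h6 : (x / 2) ^ 3 * (3 * x) = 3 * x ^ 4 / 8 := by ring
      linarith
  refine ⟨hX, ?_⟩
  rcases le_total y (2 * x) with h | h
  · calc y ^ 4 ≤ (2 * x) ^ 4 := by gcongr
      _ = 16 * x ^ 4 := by ring
      _ ≤ _ := by linarith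
  · have h4 : y / 2 ≤ |y - x| := by
      have := le_abs_self (y - x)
      linarith
    have h5 : (y / 2) ^ 3 * y ≤ |y - x| ^ 3 * (y + 3 * x) := by
      gcongr
      linarith
    have h6 : (y / 2) ^ 3 * y = y ^ 4 / 8 := by ring
    linarith

theorem bd12 (a b A B : ℤ) (s e : ℚ) (hco : IsCoprime a b)
    (hR : RC A B (Mc12 a b) (Nc12 a b) s e)
    (H : ℕ) (hA : 4 * |A| ^ 3 ≤ H) (hB : 27 * B ^ 2 ≤ H) :
    a.natAbs ^ 48 ≤ 32768 ^ 6 * H ∧ b.natAbs ^ 48 ≤ 32768 ^ 6 * H := by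
  obtain ⟨x, y, hxy⟩ := bez12 hco
  obtain ⟨K, hK0, hK, hM, hN⟩ := size hR (by norm_num) hxy hA hB
  have h3 : 16 * ((a : ℝ) ^ 2) ^ 3 * (b : ℝ) ^ 2 ≤ 672 * K := by
    have h4 := (le_abs_self _).trans hM
    unfold Mc12 at h4
    push_cast at h4
    have h5 : 16 * ((a : ℝ) ^ 2) ^ 3 * (b : ℝ) ^ 2 = 16 * (a : ℝ) ^ 6 * (b : ℝ) ^ 2 := by ring
    rw [h5]
    linarith
  have h5 : |((b : ℝ) ^ 2 - (a : ℝ) ^ 2) ^ 3 * ((b : ℝ) ^ 2 + 3 * (a : ℝ) ^ 2)| ≤ 768 * K := by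
    unfold Nc12 at hN
    push_cast at hN
    have h4 : (16 : ℝ) * 48 * K = 768 * K := by ring
    rw [← h4]
    exact hN
  obtain ⟨h6, h7⟩ := ineq12 (sq_nonneg (a : ℝ)) (sq_nonneg (b : ℝ)) hK0 h3 h5
  rw [← pow_mul] at h6 h7
  norm_num at h6 h7
  constructor
  · exact nat_pow_le (d := 4) (C := 32768 ^ 6) hK 32768 (by norm_num) (by norm_num; linarith)
  · exact nat_pow_le (d := 4) (C := 32768 ^ 6) hK 32768 (by norm_num) (by norm_num; linarith)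

/-- the parametrisation for points of order 12 -/
theorem p12_of (hI : S_ISO2) : S_P12 := parc_of hI 12 48 (32768 ^ 6) Mc12 Nc12 core12 bd12

theorem t_P12 : S_P12 := p12_of Pool.Agent.V7H67.CY.t_ISO2

end Pool.Agent.V7H30.CY
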