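import Pool.Agent.V7H30.CY.Com
import Pool.Agent.V7H67.CY.ISO2

/-!
# Parametrisation of the curves with a point of order 8
-/

set_option autoImplicit false

namespace Pool.Agent.V7H30.CY

open Finset Pool.Agent.W262.RK Pool.Agent.W307.RT Pool.Agent.V7H45.CY WeierstrassCurve.Affine
open Pool.Agent.W605.RT (sh_eq sh_negY two_tors int_root int_sqrt root_sq)
open Pool.Agent.V7H54.C8 (dbl)

theorem core8 (A B : ℤ) (hD : 4 * A ^ 3 + 27 * B ^ 2 ≠ 0) (hT : HasC 8 (Sh A B)) :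
    ∃ w : ℤ × ℤ, IsCoprime w.1 w.2 ∧ ∃ s e : ℚ, RC A B (Mc8 w.1 w.2) (Nc8 w.1 w.2) s e := by
  obtain ⟨P, hP⟩ := hT
  have h4 : addOrderOf (P + P) = 4 := by
    rw [← two_nsmul, addOrderOf_nsmul' P two_ne_zero, hP]
    norm_num
  have h2 : addOrderOf ((P + P) + (P + P)) = 2 := by
    rw [← two_nsmul (P + P), addOrderOf_nsmul' _ two_ne_zero, h4]
    norm_num
  have n4 : P + P ≠ 0 := by
    intro h
    rw [h, addOrderOf_zero] at h4
    norm_num at h4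
  have n2 : (P + P) + (P + P) ≠ 0 := by
    intro h
    rw [h, addOrderOf_zero] at h2
    norm_num at h2
  obtain ⟨x8, y8, hxy8, hP8, hy8, he8, x4, y4, h4', hP4, hx4⟩ := dbl n4
  obtain ⟨x, y, hxy, hPx, hy, hxy', x', y', h', hP2, hx'⟩ := dbl n2
  obtain ⟨e, h1, hPP⟩ := two_tors h2
  have hx : x = x4 := by
    rw [hP4] at hPx
    exact ((Point.some.inj hPx).1).symm
  have hx1 : x' = e := by
    rw [hPP] at hP2
    exact ((Point.some.inj hP2).1).symm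
  have r1 : e ^ 3 + A * e + B = 0 := by
    have := sh_eq.mp h1.1
    linarith
  rw [hx1] at hx'
  obtain ⟨s, t, hs0, ht0, hsx, hs, ht, hne⟩ := half_four hD hy hxy' r1 hx'
  -- the point `P`
  have q1 := root_sq hy8 he8 r1 hx4
  rw [← hx, ← hsx] at q1
  obtain ⟨σ, hσ⟩ : ∃ σ : ℚ, σ = (x8 ^ 2 - 2 * e * x8 - A - 2 * e ^ 2) / (2 * y8) := ⟨_, rfl⟩
  rw [← hσ] at q1
  have hσ0 : σ ≠ 0 := by
    intro h
    apply hs0
    rw [q1, h]; norm_num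
  have hX0 : x8 - e ≠ 0 := by
    intro h
    apply hy8
    have h5 : y8 ^ 2 = 0 := by
      have : x8 = e := by linarith
      rw [he8, this]; linarith
    exact (pow_eq_zero_iff two_ne_zero).1 h5
  have hσ2 : σ * (2 * y8) = (x8 - e) ^ 2 - s ^ 2 := by
    rw [hσ, div_mul_cancel₀ _ (mul_ne_zero two_ne_zero hy8), hs]; ring
  obtain ⟨η, hη⟩ : ∃ η : ℚ, η = y8 / (x8 - e) := ⟨_, rfl⟩
  have hη0 : η ≠ 0 := by rw [hη]; exact div_ne_zero hy8 hX0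
  have hy8' : y8 = η * (x8 - e) := by rw [hη]; field_simp
  have k1 : η ^ 2 * (x8 - e) = (x8 - e) ^ 2 + 3 * e * (x8 - e) + s ^ 2 := by
    have h5 : (x8 - e) * (η ^ 2 * (x8 - e)) =
        (x8 - e) * ((x8 - e) ^ 2 + 3 * e * (x8 - e) + s ^ 2) := by
      have h6 : (x8 - e) * (η ^ 2 * (x8 - e)) = y8 ^ 2 := by rw [hy8']; ring
      rw [h6, he8, hs]
      linear_combination r1
    exact mul_left_cancel₀ hX0 h5
  have k2 : 2 * σ * η * (x8 - e) = (x8 - e) ^ 2 - s ^ 2 := by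
    rw [← hσ2, hy8']; ring
  have k3 : (η ^ 2 - t ^ 2) ^ 2 = (2 * σ * t) ^ 2 := by
    have h5 : (x8 - e) ^ 2 * ((η ^ 2 - t ^ 2) ^ 2) = (x8 - e) ^ 2 * ((2 * σ * t) ^ 2) := by
      have h6 : ((η ^ 2 - 3 * e) * (x8 - e)) ^ 2 =
          (2 * σ * η * (x8 - e)) ^ 2 + 4 * s ^ 2 * (x8 - e) ^ 2 := by
        have h7 : (η ^ 2 - 3 * e) * (x8 - e) = (x8 - e) ^ 2 + s ^ 2 := by
          linear_combination k1
        rw [h7, k2]; ring
      linear_combination h6 + (x8 - e) ^ 2 * (-4 * η ^ 2 + 12 * e + 8 * s) * q1 +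
        (x8 - e) ^ 2 * (t ^ 2 + 3 * e + 2 * s - 2 * η ^ 2 - 4 * σ ^ 2) * ht
    exact mul_left_cancel₀ (pow_ne_zero 2 hX0) h5
  obtain ⟨τ, hτ, hk⟩ : ∃ τ : ℚ, s = τ ^ 2 ∧ η ^ 2 = t * (t + 2 * τ) := by
    rcases sq_eq_sq_iff_eq_or_eq_neg.1 k3 with h | h
    · exact ⟨σ, q1, by linear_combination h⟩
    · exact ⟨-σ, by rw [q1]; ring, by linear_combination h⟩
  -- the parameters
  obtain ⟨χ, hχ⟩ : ∃ χ : ℚ, χ = η / t := ⟨_, rfl⟩
  obtain ⟨a, ha⟩ : ∃ a : ℤ, a = χ.den := ⟨_, rfl⟩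
  obtain ⟨b, hb⟩ : ∃ b : ℤ, b = χ.num := ⟨_, rfl⟩
  have hco : IsCoprime a b := by
    rw [ha, hb, Int.isCoprime_iff_gcd_eq_one, Int.gcd_comm]
    exact χ.reduced
  have ha0 : (a : ℚ) ≠ 0 := by rw [ha]; exact_mod_cast χ.den_nz
  have hab : χ * a = b := by
    rw [ha, hb]
    exact_mod_cast Rat.mul_den_eq_num χ
  obtain ⟨l, hl⟩ : ∃ l : ℚ, l = t / a ^ 2 := ⟨_, rfl⟩
  have hl0 : l ≠ 0 := by rw [hl]; exact div_ne_zero ht0 (pow_ne_zero 2 ha0)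
  have e1 : t = a ^ 2 * l := by rw [hl]; field_simp
  have e2 : t + 2 * τ = b ^ 2 * l := by
    have h5 : η = χ * t := by rw [hχ]; field_simp
    have h6 : t * (t + 2 * τ) = t * (χ ^ 2 * t) := by rw [← hk, h5]; ring
    have h7 := mul_left_cancel₀ ht0 h6
    rw [h7, ← hab, e1]; ring
  have e3 : 2 * τ = (b ^ 2 - a ^ 2) * l := by linear_combination e2 - e1
  have e4 : t ^ 2 = l ^ 2 * (Mc8 a b : ℤ) := by
    unfold Mc8; push_cast; rw [e1]; ring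
  have e5 : 4 * s = l ^ 2 * (Nc8 a b : ℤ) := by
    unfold Nc8; push_cast
    have : 4 * s = (2 * τ) ^ 2 := by rw [hτ]; ring
    rw [this, e3]; ring
  refine ⟨(a, b), hco, l, e, hl0, ?_, ?_, ?_, r1, ?_, ?_⟩
  · change Mc8 a b ≠ 0
    intro h
    apply ht0
    rw [h] at e4
    have h5 : t ^ 2 = 0 := by rw [e4]; simp
    exact (pow_eq_zero_iff two_ne_zero).1 h5
  · change Nc8 a b ≠ 0
    intro h
    apply hs0
    rw [h] at e5
    have h5 : 4 * s = 0 := by rw [e5]; simp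
    linarith
  · change Mc8 a b ≠ Nc8 a b
    intro h
    apply hne
    rw [h, ← e5] at e4
    linarith
  · change 6 * e = l ^ 2 * (2 * (Mc8 a b : ℤ) - (Nc8 a b : ℤ))
    linear_combination (-2) * ht + 2 * e4 - e5
  · change 16 * (3 * e ^ 2 + A) = l ^ 4 * ((Nc8 a b : ℤ) : ℚ) ^ 2
    rw [← hs]
    linear_combination (4 * s + l ^ 2 * (Nc8 a b : ℤ)) * e5

theorem bd8 (a b A B : ℤ) (s e : ℚ) (hco : IsCoprime a b) (hR : RC A B (Mc8 a b) (Nc8 a b) s e)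
    (H : ℕ) (hA : 4 * |A| ^ 3 ≤ H) (hB : 27 * B ^ 2 ≤ H) :
    a.natAbs ^ 24 ≤ 60 ^ 6 * H ∧ b.natAbs ^ 24 ≤ 60 ^ 6 * H := by
  have h1 : IsCoprime (Mc8 a b) (Nc8 a b) := by
    unfold Mc8 Nc8
    apply IsCoprime.pow
    have h2 : IsCoprime a (b ^ 2 + a * (-a)) := by
      rw [IsCoprime.add_mul_left_right_iff]
      exact hco.pow_right
    rwa [show b ^ 2 + a * (-a) = b ^ 2 - a ^ 2 by ring] at h2
  obtain ⟨x, y, hxy⟩ := h1
  obtain ⟨K, hK0, hK, hM, hN⟩ := size hR one_pos hxy hA hB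
  have h3 : (a : ℝ) ^ 4 ≤ 14 * K := by
    have h4 := (le_abs_self _).trans hM
    unfold Mc8 at h4
    push_cast at h4
    linarith
  have h5 : ((b : ℝ) ^ 2 - (a : ℝ) ^ 2) ^ 2 ≤ 16 * K := by
    have h4 := (le_abs_self _).trans hN
    unfold Nc8 at h4
    push_cast at h4
    linarith
  have h6 : (b : ℝ) ^ 4 ≤ 60 * K := by
    nlinarith [sq_nonneg ((b : ℝ) ^ 2 - 2 * (a : ℝ) ^ 2)]
  constructor
  · exact nat_pow_le (d := 2) (C := 60 ^ 6) hK 60 (by norm_num) (by norm_num; linarith)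
  · exact nat_pow_le (d := 2) (C := 60 ^ 6) hK 60 (by norm_num) (by norm_num; linarith)

/-- the parametrisation for points of order 8 -/
theorem p8_of (hI : S_ISO2) : S_P8 := parc_of hI 8 24 (60 ^ 6) Mc8 Nc8 core8 bd8

theorem t_P8 : S_P8 := p8_of Pool.Agent.V7H67.CY.t_ISO2

end Pool.Agent.V7H30.CY
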