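import Pool.Agent.V7H45.CY.Spec
import Pool.Agent.V7H54.C8.Par8
import Pool.Agent.W135.RT.Par6
import Pool.Agent.W214.RK.Half

/-!
# Curves with a cyclic subgroup of order 8 or 12: common part of the parametrisations
-/

set_option autoImplicit false

namespace Pool.Agent.V7H30.CY

open Finset Pool.Agent.W262.RK Pool.Agent.W307.RT Pool.Agent.V7H45.CY WeierstrassCurve.Affine

/-- the data of a curve `y² = x³ + A x + B` isogenous to `y² = x (x + M) (x + N)` -/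
structure RC (A B M N : ℤ) (s e : ℚ) : Prop where
  s0 : s ≠ 0
  m0 : M ≠ 0
  n0 : N ≠ 0
  mn : M ≠ N
  r1 : e ^ 3 + A * e + B = 0
  r2 : 6 * e = s ^ 2 * (2 * M - N)
  r3 : 16 * (3 * e ^ 2 + A) = s ^ 4 * (N : ℚ) ^ 2

theorem fin_le (hI : S_ISO2) {A B M N : ℤ} {s e : ℚ} (h : RC A B M N s e) :
    Module.finrank ℤ (Sh A B).toAffine.Point ≤
      Module.finrank ℤ (EAB (-M) (-N)).toAffine.Point := by
  have hs := h.s0
  obtain ⟨φ⟩ := Pool.Agent.W261.RT.iso 0 (A : ℚ) (B : ℚ) e 1 one_ne_zero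
  have hW : (⟨0, ((0 : ℚ) + 3 * e) / 1 ^ 2, 0, ((A : ℚ) + 2 * e * 0 + 3 * e ^ 2) / 1 ^ 4,
      ((B : ℚ) + e * A + e ^ 2 * 0 + e ^ 3) / 1 ^ 6⟩ : WeierstrassCurve ℚ) =
      W2 (3 * e) (3 * e ^ 2 + A) := by
    unfold W2
    simp only [WeierstrassCurve.mk.injEq, true_and]
    refine ⟨by ring, by ring, ?_⟩
    linear_combination h.r1
  rw [hW] at φ
  obtain ⟨ψ⟩ := Pool.Agent.W261.RT.iso (-2 * (3 * e)) ((3 * e) ^ 2 - 4 * (3 * e ^ 2 + A)) 0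
    (s ^ 2 * M) s hs
  have e1 : e = s ^ 2 * (2 * M - N) / 6 := by linarith [h.r2]
  have e2 : (A : ℚ) = s ^ 4 * (N : ℚ) ^ 2 / 16 - 3 * e ^ 2 := by linarith [h.r3]
  have hW' : (⟨0, (-2 * (3 * e) + 3 * (s ^ 2 * M)) / s ^ 2, 0,
      ((3 * e) ^ 2 - 4 * (3 * e ^ 2 + A) + 2 * (s ^ 2 * M) * (-2 * (3 * e)) +
        3 * (s ^ 2 * M) ^ 2) / s ^ 4,
      (0 + s ^ 2 * M * ((3 * e) ^ 2 - 4 * (3 * e ^ 2 + A)) + (s ^ 2 * M) ^ 2 * (-2 * (3 * e)) +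
        (s ^ 2 * M) ^ 3) / s ^ 6⟩ : WeierstrassCurve ℚ) = EAB (-M) (-N) := by
    unfold EAB
    simp only [WeierstrassCurve.mk.injEq, true_and]
    refine ⟨?_, ?_, ?_⟩
    · rw [div_eq_iff (pow_ne_zero 2 hs), e1]; push_cast; ring
    · rw [div_eq_iff (pow_ne_zero 4 hs), e2, e1]; push_cast; ring
    · rw [div_eq_zero_iff]; left
      rw [e2, e1]; ring
  rw [hW'] at ψ
  have hfg : AddGroup.FG (EAB (-M) (-N)).toAffine.Point :=
    (Pool.Agent.W214.RK.half (-M) (-N) (neg_ne_zero.2 h.m0) (neg_ne_zero.2 h.n0)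
      (fun hh => h.mn (neg_injective hh))).1
  have hfg' : AddGroup.FG
      (W2 (-2 * (3 * e)) ((3 * e) ^ 2 - 4 * (3 * e ^ 2 + A))).toAffine.Point :=
    AddGroup.fg_of_surjective (f := ψ.symm.toAddMonoidHom) ψ.symm.surjective
  have hN : (N : ℚ) ≠ 0 := by exact_mod_cast h.n0
  have hM : (M : ℚ) ≠ 0 := by exact_mod_cast h.m0
  have hMN : (M : ℚ) - N ≠ 0 := by
    intro hh
    apply h.mn
    have : (M : ℚ) = N := by linarith
    exact_mod_cast this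
  have hb : 3 * e ^ 2 + (A : ℚ) ≠ 0 := by
    intro hh
    have h3 := h.r3
    rw [hh, mul_zero] at h3
    exact mul_ne_zero (pow_ne_zero 4 hs) (pow_ne_zero 2 hN) h3.symm
  have hd : (3 * e) ^ 2 - 4 * (3 * e ^ 2 + (A : ℚ)) ≠ 0 := by
    intro hh
    have : s ^ 4 * ((M : ℚ) * (M - N)) = 0 := by
      rw [e2, e1] at hh
      linear_combination hh
    rcases mul_eq_zero.1 this with h1 | h1
    · exact pow_ne_zero 4 hs h1
    · exact mul_ne_zero hM hMN h1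
  have h1 := hI (3 * e) (3 * e ^ 2 + A) hb hd hfg'
  have h2 := LinearEquiv.finrank_eq φ.toIntLinearEquiv
  have h3 := LinearEquiv.finrank_eq ψ.toIntLinearEquiv
  calc Module.finrank ℤ (Sh A B).toAffine.Point =
      Module.finrank ℤ (W2 (3 * e) (3 * e ^ 2 + A)).toAffine.Point := h2
    _ ≤ _ := h1
    _ = _ := h3

theorem inj {A B A' B' M N : ℤ} {s s' e e' : ℚ} (hR : RC A B M N s e) (hR' : RC A' B' M N s' e')
    (hmin : ∀ p : ℕ, p.Prime → ¬ ((p : ℤ) ^ 4 ∣ A ∧ (p : ℤ) ^ 6 ∣ B))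
    (hmin' : ∀ p : ℕ, p.Prime → ¬ ((p : ℤ) ^ 4 ∣ A' ∧ (p : ℤ) ^ 6 ∣ B')) : A = A' ∧ B = B' := by
  set σ : ℚ := s / s' with hσ
  have hs' := hR'.s0
  have hs : s = σ * s' := by rw [hσ]; field_simp
  have h0 : e = σ ^ 2 * e' := by
    have e1 := hR.r2
    have e2 := hR'.r2
    rw [hs] at e1
    linear_combination (1 / 6) * e1 - (1 / 6) * σ ^ 2 * e2
  have h1 : (A : ℚ) = σ ^ 4 * A' := by
    have e1 := hR.r3
    have e2 := hR'.r3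
    rw [hs, h0] at e1
    linear_combination (1 / 16) * e1 - (1 / 16) * σ ^ 4 * e2
  have h2 : (B : ℚ) = σ ^ 6 * B' := by
    have e1 := hR.r1
    have e2 := hR'.r1
    rw [h0, h1] at e1
    linear_combination e1 - σ ^ 6 * e2
  have hd0 : ((σ.den : ℤ) : ℚ) ≠ 0 := by exact_mod_cast σ.den_nz
  have hσ2 : σ * ((σ.den : ℤ) : ℚ) = (σ.num : ℚ) := by
    exact_mod_cast Rat.mul_den_eq_num σ
  have h3 : A * (σ.den : ℤ) ^ 4 = σ.num ^ 4 * A' := by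
    have : (A : ℚ) * ((σ.den : ℤ) : ℚ) ^ 4 = (σ.num : ℚ) ^ 4 * A' := by
      rw [h1, ← hσ2]; ring
    exact_mod_cast this
  have h4 : B * (σ.den : ℤ) ^ 6 = σ.num ^ 6 * B' := by
    have : (B : ℚ) * ((σ.den : ℤ) : ℚ) ^ 6 = (σ.num : ℚ) ^ 6 * B' := by
      rw [h2, ← hσ2]; ring
    exact_mod_cast this
  have hcop : IsCoprime (σ.den : ℤ) σ.num := by
    rw [Int.isCoprime_iff_gcd_eq_one, Int.gcd_comm]
    exact σ.reduced
  have h5 : ((σ.den : ℤ)).natAbs = 1 :=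
    Pool.Agent.W135.RT.minim hmin' _ _ hcop ⟨A, by rw [← h3]; ring⟩ ⟨B, by rw [← h4]; ring⟩
  have h6 : (σ.num).natAbs = 1 :=
    Pool.Agent.W135.RT.minim hmin _ _ hcop.symm ⟨A', by rw [← h3]; ring⟩ ⟨B', by rw [← h4]; ring⟩
  have h7 : (σ.den : ℤ) = 1 := by omega
  rw [h7] at h3 h4
  have h8 : σ.num = 1 ∨ σ.num = -1 := by omega
  rcases h8 with h8 | h8 <;> rw [h8] at h3 h4 <;> constructor <;> linarith

/-- integrality -/
theorem integ {A B M N : ℤ} {s e : ℚ} (h : RC A B M N s e) :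
    (∃ i : ℤ, s ^ 2 * (M : ℚ) = i) ∧ ∃ j : ℤ, s ^ 2 * (N : ℚ) = j := by
  obtain ⟨E, hE⟩ := Pool.Agent.W605.RT.int_root h.r1
  obtain ⟨S, hS⟩ := Pool.Agent.W605.RT.int_sqrt (M := 3 * E ^ 2 + A) (m := s ^ 2 * N / 4) (by
    push_cast; rw [hE]; linear_combination (1 / 16) * h.r3)
  have h1 : s ^ 2 * (N : ℚ) = 4 * S := by rw [hS]; ring
  refine ⟨⟨3 * E + 2 * S, ?_⟩, ⟨4 * S, ?_⟩⟩
  · push_cast
    rw [hE]
    linear_combination (-1 / 2) * h.r2 + (1 / 2) * h1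
  · push_cast; exact h1

/-- the sizes of the parameters -/
theorem size {A B M N : ℤ} {s e : ℚ} (h : RC A B M N s e) {x y k : ℤ} (hk : 0 < k)
    (hxy : x * M + y * N = k) {H : ℕ} (hA : 4 * |A| ^ 3 ≤ H) (hB : 27 * B ^ 2 ≤ H) :
    ∃ K : ℝ, 0 ≤ K ∧ K ^ 6 = H ∧ |(M : ℝ)| ≤ 14 * k * K ∧ |(N : ℝ)| ≤ 16 * k * K := by
  obtain ⟨⟨i, hi⟩, ⟨j, hj⟩⟩ := integ h
  have hs0 := h.s0
  have h1 : k * s ^ 2 = ((x * i + y * j : ℤ) : ℚ) := by
    push_cast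
    rw [← hi, ← hj]
    have : ((x * M + y * N : ℤ) : ℚ) = k := by rw [hxy]
    push_cast at this
    linear_combination -s ^ 2 * this
  have hs2 : 0 < s ^ 2 := by positivity
  have hkq : (0 : ℚ) < k := by exact_mod_cast hk
  have h2 : (1 : ℚ) ≤ k * s ^ 2 := by
    rw [h1]
    have h3 : (0 : ℚ) < ((x * i + y * j : ℤ) : ℚ) := by rw [← h1]; positivity
    have h4 : (0 : ℤ) < x * i + y * j := by exact_mod_cast h3
    exact_mod_cast h4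
  obtain ⟨K, hK0, hK⟩ : ∃ K : ℝ, 0 ≤ K ∧ K ^ 6 = H :=
    ⟨(H : ℝ) ^ ((1 : ℝ) / 6), Real.rpow_nonneg (Nat.cast_nonneg H) _, by
      rw [← Real.rpow_natCast, ← Real.rpow_mul (Nat.cast_nonneg H)]; norm_num⟩
  refine ⟨K, hK0, hK, ?_⟩
  have hAr : 4 * |(A : ℝ)| ^ 3 ≤ K ^ 6 := by
    rw [hK]; exact_mod_cast hA
  have hBr : 27 * (B : ℝ) ^ 2 ≤ K ^ 6 := by
    rw [hK]; exact_mod_cast hB
  have a1 : |(A : ℝ)| ≤ K ^ 2 := by
    have : |(A : ℝ)| ^ 3 ≤ (K ^ 2) ^ 3 := by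
      have : 0 ≤ |(A : ℝ)| ^ 3 := by positivity
      calc |(A : ℝ)| ^ 3 ≤ 4 * |(A : ℝ)| ^ 3 := by linarith
        _ ≤ K ^ 6 := hAr
        _ = _ := by ring
    exact le_of_pow_le_pow_left₀ (by norm_num) (by positivity) this
  have b1 : |(B : ℝ)| ≤ K ^ 3 := by
    have : |(B : ℝ)| ^ 2 ≤ (K ^ 3) ^ 2 := by
      rw [sq_abs]
      have : 0 ≤ (B : ℝ) ^ 2 := by positivity
      calc (B : ℝ) ^ 2 ≤ 27 * (B : ℝ) ^ 2 := by linarith
        _ ≤ K ^ 6 := hBr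
        _ = _ := by ring
    exact le_of_pow_le_pow_left₀ (by norm_num) (by positivity) this
  set E : ℝ := (e : ℝ) with hE
  set S : ℝ := ((s : ℝ)) ^ 2 with hS
  have q1 : E ^ 3 + A * E + B = 0 := by
    have := h.r1
    have h5 : ((e ^ 3 + A * e + B : ℚ) : ℝ) = 0 := by rw [this]; norm_num
    push_cast at h5
    exact h5
  have q2 : 6 * E = S * (2 * M - N) := by
    have h5 : ((6 * e : ℚ) : ℝ) = ((s ^ 2 * (2 * M - N) : ℚ) : ℝ) := by rw [h.r2]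
    push_cast at h5
    exact h5
  have q3 : 16 * (3 * E ^ 2 + A) = (S * N) ^ 2 := by
    have h5 : ((16 * (3 * e ^ 2 + A) : ℚ) : ℝ) = ((s ^ 4 * (N : ℚ) ^ 2 : ℚ) : ℝ) := by rw [h.r3]
    push_cast at h5
    rw [h5, hS]; ring
  have q4 : (1 : ℝ) ≤ k * S := by
    have h5 : ((1 : ℚ) : ℝ) ≤ ((k * s ^ 2 : ℚ) : ℝ) := by exact_mod_cast h2
    push_cast at h5
    exact h5
  have hkr : (0 : ℝ) < k := by exact_mod_cast hk
  have hS0 : 0 ≤ S := by positivity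
  -- the root
  have c1 : |E| ≤ 2 * K := by
    by_contra hc
    push Not at hc
    have hc0 : 0 < |E| := lt_of_le_of_lt (by positivity) hc
    have c2 : |E| ^ 3 ≤ K ^ 2 * |E| + K ^ 3 := by
      have : E ^ 3 = -(A * E) - B := by linarith
      calc |E| ^ 3 = |E ^ 3| := (abs_pow E 3).symm
        _ = |-(A * E) - B| := by rw [this]
        _ ≤ |-(A * E)| + |(B : ℝ)| := abs_sub _ _
        _ = |(A : ℝ)| * |E| + |(B : ℝ)| := by rw [abs_neg, abs_mul]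
        _ ≤ _ := by gcongr
    have c3 : 4 * K ^ 2 ≤ |E| ^ 2 := by nlinarith
    have c4 : 4 * K ^ 2 * |E| ≤ |E| ^ 3 := by
      calc 4 * K ^ 2 * |E| ≤ |E| ^ 2 * |E| := by gcongr
        _ = _ := by ring
    have c5 : K ^ 3 ≤ K ^ 2 * |E| := by
      calc K ^ 3 = K ^ 2 * K := by ring
        _ ≤ K ^ 2 * |E| := by gcongr; linarith
    have c6 : 2 * (K ^ 2 * |E|) ≤ 0 := by linarith
    have c7 : K ^ 2 * |E| = 0 := le_antisymm (by linarith) (by positivity)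
    have c8 : K ^ 3 ≤ 0 := by rw [← c7]; exact c5
    have c9 : |E| ^ 3 ≤ 0 := by rw [c7] at c2; linarith
    have : 0 < |E| ^ 3 := by positivity
    linarith
  have c2 : |S * N| ≤ 16 * K := by
    have : |S * N| ^ 2 ≤ (16 * K) ^ 2 := by
      rw [sq_abs, ← q3]
      have h6 : E ^ 2 ≤ (2 * K) ^ 2 := by
        rw [← sq_abs]; exact pow_le_pow_left₀ (abs_nonneg _) c1 2
      have h7 := le_abs_self (A : ℝ)
      have h8 : 0 ≤ K ^ 2 := by positivity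
      nlinarith
    exact le_of_pow_le_pow_left₀ (by norm_num) (by positivity) this
  have c3 : |S * M| ≤ 14 * K := by
    have h6 : S * M = (6 * E + S * N) / 2 := by linarith
    rw [h6, abs_div, abs_of_pos (by norm_num : (0 : ℝ) < 2)]
    have h7 : |6 * E + S * N| ≤ |6 * E| + |S * N| := abs_add_le _ _
    have h8 : |6 * E| = 6 * |E| := by rw [abs_mul, abs_of_pos (by norm_num : (0 : ℝ) < 6)]
    rw [h8] at h7
    linarith
  have key : ∀ (Z c : ℝ), |S * Z| ≤ c → |Z| ≤ k * c := by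
    intro Z c hZ
    rw [abs_mul, abs_of_nonneg hS0] at hZ
    calc |Z| = 1 * |Z| := (one_mul _).symm
      _ ≤ k * S * |Z| := by gcongr
      _ = k * (S * |Z|) := by ring
      _ ≤ k * c := by gcongr
  refine ⟨?_, ?_⟩
  · have := key M _ c3
    linarith
  · have := key N _ c2
    linarith

/-- a point of order four and its double -/
theorem half_four {A B : ℤ} (hD : 4 * A ^ 3 + 27 * B ^ 2 ≠ 0) {x y e : ℚ} (hy : y ≠ 0)
    (hxy : y ^ 2 = x ^ 3 + A * x + B) (r1 : e ^ 3 + A * e + B = 0)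
    (h1 : e = ((3 * x ^ 2 + A) / (2 * y)) ^ 2 - 2 * x) :
    ∃ s t : ℚ, s ≠ 0 ∧ t ≠ 0 ∧ s = x - e ∧ s ^ 2 = 3 * e ^ 2 + A ∧ t ^ 2 = 3 * e + 2 * s ∧
      3 * e - 2 * s ≠ 0 := by
  have s1 := Pool.Agent.W605.RT.root_sq hy hxy r1 h1
  rw [sub_self] at s1
  have h3 := (pow_eq_zero_iff (two_ne_zero)).1 s1.symm
  rw [div_eq_zero_iff] at h3
  have h4 := h3.resolve_right (by
    intro h5
    apply hy
    linarith)
  have hs : (x - e) ^ 2 = 3 * e ^ 2 + A := by linear_combination h4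
  have hy2 : y ^ 2 = (x - e) ^ 2 * (3 * e + 2 * (x - e)) := by
    linear_combination hxy + r1 - (x - e) * hs
  have hx : x - e ≠ 0 := by
    intro h
    apply hy
    have : y ^ 2 = 0 := by rw [hy2, h]; ring
    exact (pow_eq_zero_iff two_ne_zero).1 this
  have hAq : (A : ℚ) = (x - e) ^ 2 - 3 * e ^ 2 := by linarith
  have hBq : (B : ℚ) = -e ^ 3 - A * e := by linarith
  refine ⟨x - e, y / (x - e), hx, div_ne_zero hy hx, rfl, hs, ?_, ?_⟩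
  · rw [div_pow, div_eq_iff (pow_ne_zero 2 hx), hy2]; ring
  · intro h
    have h6 : (4 * (A : ℚ) ^ 3 + 27 * (B : ℚ) ^ 2) = 0 := by
      rw [hBq, hAq]
      have h7 : x - e = 3 * e / 2 := by linarith
      rw [h7]; ring
    apply hD
    exact_mod_cast h6

open Classical in
/-- the parameters of a curve -/
noncomputable def FF (M N : ℤ → ℤ → ℤ) (c : ℤ × ℤ) : ℤ × ℤ :=
  if h : ∃ w : ℤ × ℤ, IsCoprime w.1 w.2 ∧ ∃ s e : ℚ, RC c.1 c.2 (M w.1 w.2) (N w.1 w.2) s e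
  then h.choose else (0, 0)

theorem FF_spec {M N : ℤ → ℤ → ℤ} {c : ℤ × ℤ}
    (h : ∃ w : ℤ × ℤ, IsCoprime w.1 w.2 ∧ ∃ s e : ℚ, RC c.1 c.2 (M w.1 w.2) (N w.1 w.2) s e) :
    IsCoprime (FF M N c).1 (FF M N c).2 ∧
      ∃ s e : ℚ, RC c.1 c.2 (M (FF M N c).1 (FF M N c).2) (N (FF M N c).1 (FF M N c).2) s e := by
  unfold FF
  rw [dif_pos h]
  exact h.choose_spec

theorem memC {m : ℕ} {c : ℤ × ℤ} {H : ℕ} (hc : c ∈ CvC m H) :
    4 * c.1 ^ 3 + 27 * c.2 ^ 2 ≠ 0 ∧ 4 * |c.1| ^ 3 ≤ H ∧ 27 * c.2 ^ 2 ≤ H ∧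
    (∀ p : ℕ, p.Prime → ¬ ((p : ℤ) ^ 4 ∣ c.1 ∧ (p : ℤ) ^ 6 ∣ c.2)) ∧ HasC m (Sh c.1 c.2) := by
  classical
  exact (Finset.mem_filter.mp hc).2

theorem parc_of (hI : S_ISO2) (m k C : ℕ) (M N : ℤ → ℤ → ℤ)
    (core : ∀ A B : ℤ, 4 * A ^ 3 + 27 * B ^ 2 ≠ 0 → HasC m (Sh A B) →
      ∃ w : ℤ × ℤ, IsCoprime w.1 w.2 ∧ ∃ s e : ℚ, RC A B (M w.1 w.2) (N w.1 w.2) s e)
    (bd : ∀ (a b A B : ℤ) (s e : ℚ), IsCoprime a b → RC A B (M a b) (N a b) s e →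
      ∀ H : ℕ, 4 * |A| ^ 3 ≤ H → 27 * B ^ 2 ≤ H → a.natAbs ^ k ≤ C * H ∧ b.natAbs ^ k ≤ C * H) :
    PARC m k M N := by
  refine ⟨C, FF M N, fun H => ⟨?_, ?_⟩⟩
  · intro c hc c' hc' hcc
    obtain ⟨hD, -, -, hmin, hT⟩ := memC (Finset.mem_coe.mp hc)
    obtain ⟨hD', -, -, hmin', hT'⟩ := memC (Finset.mem_coe.mp hc')
    obtain ⟨-, s, e, hR⟩ := FF_spec (core _ _ hD hT)
    obtain ⟨-, s', e', hR'⟩ := FF_spec (core _ _ hD' hT')
    rw [← hcc] at hR'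
    obtain ⟨h1, h2⟩ := inj hR hR' hmin hmin'
    exact Prod.ext h1 h2
  · intro c hc
    obtain ⟨hD, hA, hB, -, hT⟩ := memC hc
    obtain ⟨hco, s, e, hR⟩ := FF_spec (core _ _ hD hT)
    obtain ⟨h1, h2⟩ := bd _ _ _ _ s e hco hR H hA hB
    exact ⟨hco, hR.m0, hR.n0, hR.mn, h1, h2, fin_le hI hR⟩

/-- powers of natural absolute values -/
theorem nat_pow_le {a : ℤ} {d C H : ℕ} {K : ℝ} (hK : K ^ 6 = H) (c : ℝ) (hc : c ^ 6 ≤ C)
    (h : (a : ℝ) ^ (2 * d) ≤ c * K) : a.natAbs ^ (2 * d * 6) ≤ C * H := by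
  have h1 : ((a.natAbs ^ (2 * d * 6) : ℕ) : ℝ) = ((a : ℝ) ^ (2 * d)) ^ 6 := by
    have h0 : ((a.natAbs : ℕ) : ℝ) ^ 2 = (a : ℝ) ^ 2 := by
      rw [Nat.cast_natAbs]; push_cast; exact sq_abs _
    rw [Nat.cast_pow, ← pow_mul, show 2 * d * 6 = 2 * (d * 6) by ring, pow_mul, pow_mul (a : ℝ), h0]
  have h2 : ((a : ℝ) ^ (2 * d)) ^ 6 ≤ (c * K) ^ 6 :=
    pow_le_pow_left₀ (by rw [pow_mul]; positivity) h 6
  have h3 : (c * K) ^ 6 ≤ C * H := by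
    rw [mul_pow, hK]
    exact mul_le_mul_of_nonneg_right hc (Nat.cast_nonneg H)
  have h4 : ((a.natAbs ^ (2 * d * 6) : ℕ) : ℝ) ≤ ((C * H : ℕ) : ℝ) := by
    rw [h1]; push_cast; exact h2.trans h3
  exact_mod_cast h4

end Pool.Agent.V7H30.CY
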