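import Pool.Agent.V7H30.CY.Com
import Pool.Agent.V7H67.CY.ISO2

/-!
# Parametrisation of the curves with a point of order 4
-/

set_option autoImplicit false

namespace Pool.Agent.V7H30.CY

open Finset Pool.Agent.W262.RK Pool.Agent.W307.RT Pool.Agent.V7H45.CY WeierstrassCurve.Affine
open Pool.Agent.W605.RT (sh_eq sh_negY two_tors int_root int_sqrt root_sq)
open Pool.Agent.V7H54.C8 (dbl)

/-- the sizes of the parameters -/
theorem size2 {A B M N : ℤ} {s e : ℚ} (h : RC A B M N s e) (h2 : 1 ≤ s ^ 2) {H : ℕ}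
    (hA : 4 * |A| ^ 3 ≤ H) (hB : 27 * B ^ 2 ≤ H) :
    ∃ K : ℝ, 0 ≤ K ∧ K ^ 6 = H ∧ |(M : ℝ)| ≤ 14 * K ∧ |(N : ℝ)| ≤ 16 * K := by
  obtain ⟨K, hK0, hK⟩ : ∃ K : ℝ, 0 ≤ K ∧ K ^ 6 = H :=
    ⟨(H : ℝ) ^ ((1 : ℝ) / 6), Real.rpow_nonneg (Nat.cast_nonneg H) _, by
      rw [← Real.rpow_natCast, ← Real.rpow_mul (Nat.cast_nonneg H)]; norm_num⟩
  refine ⟨K, hK0, hK, ?_⟩
  have hAr : 4 * |(A : ℝ)| ^ 3 ≤ K ^ 6 := by
    rw [hK]; exact_mod_cast hA
  have hBr : 27 * (B : ℝ) ^ 2 ≤ K ^ 6 := by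
    rw [hK]; exact_mod_cast hB
  have a1 : |(A : ℝ)| ≤ K ^ 2 := by
    have : |(A : ℝ)| ^ 3 ≤ (K ^ 2) ^ 3 := by
      have : 0 ≤ |(A : ℝ)| ^ 3 := by positivity
      calc |(A : ℝ)| ^ 3 ≤ 4 * |(A : ℝ)| ^ 3 := by linarith
        _ ≤ K ^ 6 := hAr
        _ = _ := by ring
    exact le_of_pow_le_pow_left₀ (by norm_num) (by positivity) this
  have b1 : |(B : ℝ)| ≤ K ^ 3 := by
    have : |(B : ℝ)| ^ 2 ≤ (K ^ 3) ^ 2 := by
      rw [sq_abs]
      have : 0 ≤ (B : ℝ) ^ 2 := by positivity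
      calc (B : ℝ) ^ 2 ≤ 27 * (B : ℝ) ^ 2 := by linarith
        _ ≤ K ^ 6 := hBr
        _ = _ := by ring
    exact le_of_pow_le_pow_left₀ (by norm_num) (by positivity) this
  set E : ℝ := (e : ℝ) with hE
  set S : ℝ := ((s : ℝ)) ^ 2 with hS
  have q1 : E ^ 3 + A * E + B = 0 := by
    have := h.r1
    have h5 : ((e ^ 3 + A * e + B : ℚ) : ℝ) = 0 := by rw [this]; norm_num
    push_cast at h5
    exact h5
  have q2 : 6 * E = S * (2 * M - N) := by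
    have h5 : ((6 * e : ℚ) : ℝ) = ((s ^ 2 * (2 * M - N) : ℚ) : ℝ) := by rw [h.r2]
    push_cast at h5
    exact h5
  have q3 : 16 * (3 * E ^ 2 + A) = (S * N) ^ 2 := by
    have h5 : ((16 * (3 * e ^ 2 + A) : ℚ) : ℝ) = ((s ^ 4 * (N : ℚ) ^ 2 : ℚ) : ℝ) := by rw [h.r3]
    push_cast at h5
    rw [h5, hS]; ring
  have q4 : (1 : ℝ) ≤ S := by
    have h5 : ((1 : ℚ) : ℝ) ≤ ((s ^ 2 : ℚ) : ℝ) := by exact_mod_cast h2
    push_cast at h5
    exact h5
  have hS0 : 0 ≤ S := by positivity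
  -- the root
  have c1 : |E| ≤ 2 * K := by
    by_contra hc
    push Not at hc
    have hc0 : 0 < |E| := lt_of_le_of_lt (by positivity) hc
    have c2 : |E| ^ 3 ≤ K ^ 2 * |E| + K ^ 3 := by
      have : E ^ 3 = -(A * E) - B := by linarith
      calc |E| ^ 3 = |E ^ 3| := (abs_pow E 3).symm
        _ = |-(A * E) - B| := by rw [this]
        _ ≤ |-(A * E)| + |(B : ℝ)| := abs_sub _ _
        _ = |(A : ℝ)| * |E| + |(B : ℝ)| := by rw [abs_neg, abs_mul]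
        _ ≤ _ := by gcongr
    have c3 : 4 * K ^ 2 ≤ |E| ^ 2 := by nlinarith
    have c4 : 4 * K ^ 2 * |E| ≤ |E| ^ 3 := by
      calc 4 * K ^ 2 * |E| ≤ |E| ^ 2 * |E| := by gcongr
        _ = _ := by ring
    have c5 : K ^ 3 ≤ K ^ 2 * |E| := by
      calc K ^ 3 = K ^ 2 * K := by ring
        _ ≤ K ^ 2 * |E| := by gcongr; linarith
    have c6 : 2 * (K ^ 2 * |E|) ≤ 0 := by linarith
    have c7 : K ^ 2 * |E| = 0 := le_antisymm (by linarith) (by positivity)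
    have c8 : K ^ 3 ≤ 0 := by rw [← c7]; exact c5
    have c9 : |E| ^ 3 ≤ 0 := by rw [c7] at c2; linarith
    have : 0 < |E| ^ 3 := by positivity
    linarith
  have c2 : |S * N| ≤ 16 * K := by
    have : |S * N| ^ 2 ≤ (16 * K) ^ 2 := by
      rw [sq_abs, ← q3]
      have h6 : E ^ 2 ≤ (2 * K) ^ 2 := by
        rw [← sq_abs]; exact pow_le_pow_left₀ (abs_nonneg _) c1 2
      have h7 := le_abs_self (A : ℝ)
      have h8 : 0 ≤ K ^ 2 := by positivity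
      nlinarith
    exact le_of_pow_le_pow_left₀ (by norm_num) (by positivity) this
  have c3 : |S * M| ≤ 14 * K := by
    have h6 : S * M = (6 * E + S * N) / 2 := by linarith
    rw [h6, abs_div, abs_of_pos (by norm_num : (0 : ℝ) < 2)]
    have h7 : |6 * E + S * N| ≤ |6 * E| + |S * N| := abs_add_le _ _
    have h8 : |6 * E| = 6 * |E| := by rw [abs_mul, abs_of_pos (by norm_num : (0 : ℝ) < 6)]
    rw [h8] at h7
    linarith
  have key : ∀ (Z c : ℝ), |S * Z| ≤ c → |Z| ≤ c := by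
    intro Z c hZ
    rw [abs_mul, abs_of_nonneg hS0] at hZ
    calc |Z| = 1 * |Z| := (one_mul _).symm
      _ ≤ S * |Z| := by gcongr
      _ ≤ c := hZ
  refine ⟨?_, ?_⟩
  · have := key M _ c3
    linarith
  · have := key N _ c2
    linarith

/-- the pair `(t, s)` of weights one and two is primitive -/
def Prim4 (t s : ℤ) : Prop := ∀ p : ℕ, p.Prime → ¬ ((p : ℤ) ∣ t ∧ (p : ℤ) ^ 2 ∣ s)

theorem prim4_exists (n : ℕ) : ∀ t s : ℤ, 0 < t → t ≤ n → ∃ g t' s' : ℤ, 0 < g ∧ 0 < t' ∧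
    t = g * t' ∧ s = g ^ 2 * s' ∧ Prim4 t' s' := by
  induction n using Nat.strong_induction_on with
  | _ n ih =>
    intro t s ht hn
    by_cases hp : Prim4 t s
    · exact ⟨1, t, s, one_pos, ht, by ring, by ring, hp⟩
    · unfold Prim4 at hp
      push Not at hp
      obtain ⟨p, hpp, ⟨t1, ht1⟩, ⟨s1, hs1⟩⟩ := hp
      have hp2 : (2 : ℤ) ≤ p := by exact_mod_cast hpp.two_le
      have ht1p : 0 < t1 := by
        by_contra hc
        push Not at hc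
        have : (p : ℤ) * t1 ≤ 0 := mul_nonpos_of_nonneg_of_nonpos (by linarith) hc
        linarith
      have hlt : t1 < t := by rw [ht1]; nlinarith
      obtain ⟨g, t', s', hg, ht', e1, e2, hpr⟩ := ih t1.toNat (by omega) t1 s1 ht1p (by omega)
      exact ⟨p * g, t', s', by positivity, ht', by rw [ht1, e1]; ring, by rw [hs1, e2]; ring, hpr⟩

/-- the relation between a curve with a point of order 4 and its parameters -/
def Rel4 (c ts : ℤ × ℤ) : Prop := 0 < ts.1 ∧ Prim4 ts.1 ts.2 ∧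
  ∃ l e : ℚ, 1 ≤ l ^ 2 ∧ RC c.1 c.2 (ts.1 ^ 2) (4 * ts.2) l e

theorem core4 (A B : ℤ) (hD : 4 * A ^ 3 + 27 * B ^ 2 ≠ 0) (hT : HasC 4 (Sh A B)) :
    ∃ ts, Rel4 (A, B) ts := by
  obtain ⟨P, hP⟩ := hT
  have h2 : addOrderOf (P + P) = 2 := by
    rw [← two_nsmul P, addOrderOf_nsmul' _ two_ne_zero, hP]
    norm_num
  have n2 : P + P ≠ 0 := by
    intro h
    rw [h, addOrderOf_zero] at h2
    norm_num at h2
  obtain ⟨x, y, hxy, hPx, hy, hxy', x', y', h', hP2, hx'⟩ := dbl n2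
  obtain ⟨e, h1, hPP⟩ := two_tors h2
  have hx1 : x' = e := by
    rw [hPP] at hP2
    exact ((Point.some.inj hP2).1).symm
  have r1 : e ^ 3 + A * e + B = 0 := by
    have := sh_eq.mp h1.1
    linarith
  rw [hx1] at hx'
  obtain ⟨s, t, hs0, ht0, hsx, hs, ht, hne⟩ := half_four hD hy hxy' r1 hx'
  obtain ⟨E, hE⟩ := int_root r1
  obtain ⟨S, hS⟩ := int_sqrt (M := 3 * E ^ 2 + A) (m := s) (by push_cast; rw [hE, hs])
  obtain ⟨T, hT⟩ := int_sqrt (M := 3 * E + 2 * S) (m := t) (by push_cast; rw [hE, hS, ht])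
  have hT0 : T ≠ 0 := by
    intro h
    apply ht0
    rw [← hT, h]; norm_num
  obtain ⟨g, t', s', hg, ht', e1, e2, hpr⟩ := prim4_exists |T|.toNat |T| S (abs_pos.2 hT0)
    (by rw [Int.toNat_of_nonneg (abs_nonneg T)])
  have hgq : (g : ℚ) ≠ 0 := by exact_mod_cast hg.ne'
  have f1 : t ^ 2 = (g : ℚ) ^ 2 * ((t' ^ 2 : ℤ) : ℚ) := by
    have : T ^ 2 = g ^ 2 * t' ^ 2 := by rw [← sq_abs T, e1]; ring
    rw [← hT]
    exact_mod_cast this
  have f2 : 4 * s = (g : ℚ) ^ 2 * ((4 * s' : ℤ) : ℚ) := by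
    rw [← hS, e2]; push_cast; ring
  refine ⟨(t', s'), ht', hpr, g, e, ?_, hgq, ?_, ?_, ?_, r1, ?_, ?_⟩
  · have : (1 : ℚ) ≤ g := by exact_mod_cast hg
    nlinarith
  · exact pow_ne_zero 2 ht'.ne'
  · change 4 * s' ≠ 0
    intro h
    apply hs0
    rw [h] at f2
    have : 4 * s = 0 := by rw [f2]; simp
    linarith
  · change t' ^ 2 ≠ 4 * s'
    intro h
    apply hne
    rw [h, ← f2] at f1
    linarith
  · change 6 * e = (g : ℚ) ^ 2 * (2 * ((t' ^ 2 : ℤ) : ℚ) - ((4 * s' : ℤ) : ℚ))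
    linear_combination (-2) * ht + 2 * f1 - f2
  · change 16 * (3 * e ^ 2 + A) = (g : ℚ) ^ 4 * (((4 * s' : ℤ) : ℚ)) ^ 2
    rw [← hs]
    linear_combination (4 * s + (g : ℚ) ^ 2 * ((4 * s' : ℤ) : ℚ)) * f2

open Classical in
/-- the parameters of a curve with a point of order 4 -/
noncomputable def F4 (c : ℤ × ℤ) : ℤ × ℤ := if h : ∃ ts, Rel4 c ts then h.choose else (0, 0)

theorem F4_spec {c : ℤ × ℤ} (h : ∃ ts, Rel4 c ts) : Rel4 c (F4 c) := by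
  unfold F4
  rw [dif_pos h]
  exact h.choose_spec

/-- the parametrisation of the curves with a point of order 4 -/
def S_P4 : Prop := ∃ (C : ℕ) (F : ℤ × ℤ → ℤ × ℤ), ∀ H : ℕ,
  Set.InjOn F (CvC 4 H : Set (ℤ × ℤ)) ∧ ∀ c ∈ CvC 4 H, 0 < (F c).1 ∧ (F c).2 ≠ 0 ∧
    (F c).1 ^ 2 ≠ 4 * (F c).2 ∧
    (∀ p : ℕ, p.Prime → ¬ ((p : ℤ) ∣ (F c).1 ∧ (p : ℤ) ^ 2 ∣ (F c).2)) ∧
    (F c).1.natAbs ^ 12 ≤ C * H ∧ (F c).2.natAbs ^ 6 ≤ C * H ∧
    Module.finrank ℤ (Sh c.1 c.2).toAffine.Point ≤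
      Module.finrank ℤ (EAB (-((F c).1 ^ 2)) (-(4 * (F c).2))).toAffine.Point

theorem p4_of (hI : S_ISO2) : S_P4 := by
  refine ⟨14 ^ 6, F4, fun H => ⟨?_, ?_⟩⟩
  · intro c hc c' hc' hcc
    obtain ⟨hD, -, -, hmin, hT⟩ := memC (Finset.mem_coe.mp hc)
    obtain ⟨hD', -, -, hmin', hT'⟩ := memC (Finset.mem_coe.mp hc')
    obtain ⟨-, -, l, e, -, hR⟩ := F4_spec (core4 _ _ hD hT)
    obtain ⟨-, -, l', e', -, hR'⟩ := F4_spec (core4 _ _ hD' hT')
    change RC c.1 c.2 ((F4 c).1 ^ 2) (4 * (F4 c).2) l e at hR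
    change RC c'.1 c'.2 ((F4 c').1 ^ 2) (4 * (F4 c').2) l' e' at hR'
    rw [← hcc] at hR'
    obtain ⟨h1, h2⟩ := inj hR hR' hmin hmin'
    exact Prod.ext h1 h2
  · intro c hc
    obtain ⟨hD, hA, hB, -, hT⟩ := memC hc
    obtain ⟨h1, h2, l, e, hl, hR⟩ := F4_spec (core4 _ _ hD hT)
    change 0 < (F4 c).1 at h1
    change Prim4 (F4 c).1 (F4 c).2 at h2
    change RC c.1 c.2 ((F4 c).1 ^ 2) (4 * (F4 c).2) l e at hR
    obtain ⟨K, hK0, hK, hM, hN⟩ := size2 hR hl hA hB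
    refine ⟨h1, ?_, hR.mn, h2, ?_, ?_, fin_le hI hR⟩
    · intro h
      apply hR.n0
      rw [h]; norm_num
    · refine nat_pow_le (d := 1) (C := 14 ^ 6) hK 14 (by norm_num) ?_
      have h3 := (le_abs_self _).trans hM
      push_cast at h3
      norm_num
      exact h3
    · have h3 : (((F4 c).2.natAbs : ℕ) : ℝ) ≤ 4 * K := by
        rw [Nat.cast_natAbs]
        push_cast
        push_cast at hN
        rw [abs_mul, abs_of_pos (by norm_num : (0 : ℝ) < 4)] at hN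
        linarith
      have h4 : (((F4 c).2.natAbs : ℕ) : ℝ) ^ 6 ≤ (4 * K) ^ 6 :=
        pow_le_pow_left₀ (Nat.cast_nonneg _) h3 6
      rw [mul_pow, hK] at h4
      have h5 : (0 : ℝ) ≤ H := Nat.cast_nonneg H
      have h6 : (((F4 c).2.natAbs ^ 6 : ℕ) : ℝ) ≤ ((14 ^ 6 * H : ℕ) : ℝ) := by
        push_cast
        refine h4.trans ?_
        norm_num
        linarith
      exact_mod_cast h6

theorem t_P4 : S_P4 := p4_of Pool.Agent.V7H67.CY.t_ISO2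

end Pool.Agent.V7H30.CY
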